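import Pool.Agent.Helper67.DO.StmtsD

/-!
# D13: the staircase lemma
-/

namespace Pool.Agent.Helper67.DO

open scoped BigOperators Real
open MeasureTheory Filter Topology

noncomputable section

/-- products of the first coordinates -/
def d13_A (q : ℕ) (i : ℕ) (u : Fin q → ℝ) : ℝ := ∏ k : Fin q, if (k : ℕ) < i then u k else 1

theorem d13_lam_lt (q i : ℕ) (hi : i < q) (u : Fin q → ℝ) :
    lam q i u = d13_A q i u - d13_A q (i + 1) u := by
  have h1 : (∏ k : Fin q, if (k : ℕ) = i then 1 - u k else 1) = 1 - u ⟨i, hi⟩ := by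
    rw [Finset.prod_eq_single (⟨i, hi⟩ : Fin q)]
    · simp
    · intro b _ hb
      rw [if_neg]
      intro h
      exact hb (Fin.ext h)
    · intro h
      exact absurd (Finset.mem_univ _) h
  have h2 : d13_A q (i + 1) u = d13_A q i u * u ⟨i, hi⟩ := by
    have : ∀ k : Fin q, (if (k : ℕ) < i + 1 then u k else 1)
        = (if (k : ℕ) < i then u k else 1) * (if k = (⟨i, hi⟩ : Fin q) then u k else 1) := by
      intro k
      by_cases h : (k : ℕ) < i
      · have h' : (k : ℕ) < i + 1 := by omega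
        have h'' : k ≠ (⟨i, hi⟩ : Fin q) := by
          intro e
          rw [e] at h
          simp at h
        rw [if_pos h, if_pos h', if_neg h'', mul_one]
      · by_cases h3 : (k : ℕ) = i
        · have h'' : k = (⟨i, hi⟩ : Fin q) := Fin.ext h3
          rw [if_neg h, if_pos (by omega), if_pos h'', one_mul]
        · have h'' : k ≠ (⟨i, hi⟩ : Fin q) := fun e => h3 (by rw [e])
          rw [if_neg h, if_neg (by omega), if_neg h'', one_mul]
    unfold d13_A
    rw [Finset.prod_congr rfl fun k _ => this k, Finset.prod_mul_distrib]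
    congr 1
    rw [Finset.prod_ite_eq' Finset.univ (⟨i, hi⟩ : Fin q) u]
    simp
  have h3 : lam q i u = d13_A q i u * ∏ k : Fin q, if (k : ℕ) = i then 1 - u k else 1 := rfl
  rw [h3, h1, h2]
  ring

theorem d13_lam_top (q : ℕ) (u : Fin q → ℝ) : lam q q u = d13_A q q u := by
  have h3 : lam q q u = d13_A q q u * ∏ k : Fin q, if (k : ℕ) = q then 1 - u k else 1 := rfl
  rw [h3]
  have : (∏ k : Fin q, if (k : ℕ) = q then 1 - u k else 1) = 1 := by
    apply Finset.prod_eq_one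
    intro k _
    rw [if_neg]
    exact k.2.ne
  rw [this, mul_one]

theorem d13_lam_sum (q : ℕ) (u : Fin q → ℝ) : ∑ i ∈ Finset.range (q + 1), lam q i u = 1 := by
  rw [Finset.sum_range_succ, d13_lam_top]
  have h1 : ∑ i ∈ Finset.range q, lam q i u = ∑ i ∈ Finset.range q, (d13_A q i u - d13_A q (i + 1) u) :=
    Finset.sum_congr rfl fun i hi => d13_lam_lt q i (Finset.mem_range.1 hi) u
  rw [h1, Finset.sum_range_sub']
  have : d13_A q 0 u = 1 := by
    unfold d13_A
    simp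
  rw [this]
  ring

theorem d13_lam_cd (q i : ℕ) : ContDiff ℝ 1 (lam q i) := by
  unfold lam
  apply ContDiff.mul
  · apply contDiff_prod
    intro k _
    split_ifs
    · exact contDiff_apply ℝ ℝ k
    · exact contDiff_const
  · apply contDiff_prod
    intro k _
    split_ifs
    · exact contDiff_const.sub (contDiff_apply ℝ ℝ k)
    · exact contDiff_const

theorem d13_hasDeriv (q i : ℕ) (a : Fin q) (u : Fin q → ℝ) :
    HasDerivAt (fun t => lam q i (Function.update u a t)) (fderiv ℝ (lam q i) u (Pi.single a 1)) (u a) := by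
  have h1 : HasDerivAt (fun t => Function.update u a t) (Pi.single a (1 : ℝ)) (u a) :=
    hasDerivAt_update u a (u a)
  have h2 : HasFDerivAt (lam q i) (fderiv ℝ (lam q i) u) (Function.update u a (u a)) := by
    rw [Function.update_eq_self]
    exact ((d13_lam_cd q i).differentiable (by norm_num) u).hasFDerivAt
  exact h2.comp_hasDerivAt (u a) h1

theorem d13_dlam_eq (q i : ℕ) (a : Fin q) (u : Fin q → ℝ) :
    dlam q i a u = fderiv ℝ (lam q i) u (Pi.single a 1) := (d13_hasDeriv q i a u).deriv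

theorem d13_dlam_cont (q i : ℕ) (a : Fin q) : Continuous (dlam q i a) := by
  have : dlam q i a = fun u => fderiv ℝ (lam q i) u (Pi.single a 1) := funext fun u => d13_dlam_eq q i a u
  rw [this]
  exact ((d13_lam_cd q i).continuous_fderiv (by norm_num)).clm_apply continuous_const

theorem d13_dlam_sum (q : ℕ) (a : Fin q) (u : Fin q → ℝ) :
    ∑ i ∈ Finset.range (q + 1), dlam q i a u = 0 := by
  have h1 : HasDerivAt (fun t => ∑ i ∈ Finset.range (q + 1), lam q i (Function.update u a t))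
      (∑ i ∈ Finset.range (q + 1), dlam q i a u) (u a) := by
    apply HasDerivAt.fun_sum
    intro i _
    rw [d13_dlam_eq]
    exact d13_hasDeriv q i a u
  have h2 : (fun t => ∑ i ∈ Finset.range (q + 1), lam q i (Function.update u a t)) = fun _ => 1 :=
    funext fun t => d13_lam_sum q _
  rw [h2] at h1
  exact h1.unique (hasDerivAt_const _ _)

/-- uniform closeness of two points of the simplex -/
theorem d13_close (q : ℕ) (y : Sq) (M : ℝ) (hM : ∀ i, ∀ x, |y i x - x| ≤ M)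
    (L L' : ℕ → ℝ) (hs : ∑ i ∈ Finset.range (q + 1), L i = ∑ i ∈ Finset.range (q + 1), L' i) (x : ℝ) :
    |∑ i ∈ Finset.range (q + 1), L i * y i x - ∑ i ∈ Finset.range (q + 1), L' i * y i x|
      ≤ ∑ i ∈ Finset.range (q + 1), |L i - L' i| * M := by
  have h0 : ∑ i ∈ Finset.range (q + 1), (L i - L' i) * x = 0 := by
    rw [← Finset.sum_mul, Finset.sum_sub_distrib, hs, sub_self, zero_mul]
  have h1 : ∑ i ∈ Finset.range (q + 1), L i * y i x - ∑ i ∈ Finset.range (q + 1), L' i * y i x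
      = ∑ i ∈ Finset.range (q + 1), (L i - L' i) * (y i x - x) := by
    have : ∑ i ∈ Finset.range (q + 1), (L i - L' i) * (y i x - x)
        = ∑ i ∈ Finset.range (q + 1), (L i - L' i) * y i x - ∑ i ∈ Finset.range (q + 1), (L i - L' i) * x := by
      rw [← Finset.sum_sub_distrib]
      exact Finset.sum_congr rfl fun i _ => by ring
    rw [this, h0, sub_zero, ← Finset.sum_sub_distrib]
    exact Finset.sum_congr rfl fun i _ => by ring
  rw [h1]
  refine (Finset.abs_sum_le_sum_abs _ _).trans (Finset.sum_le_sum fun i _ => ?_)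
  rw [abs_mul]
  exact mul_le_mul_of_nonneg_left (hM i x) (abs_nonneg _)

theorem d13_bound (h2 : ST_D2) (n : ℕ) (hn : 1 ≤ n) (q : ℕ) (y : Sq) (hy : ∀ k, y k ∈ AA n) :
    ∃ M : ℝ, 0 ≤ M ∧ ∀ i ≤ q, ∀ x, |y i x - x| ≤ M := by
  obtain ⟨K, hK, h⟩ := h2.2.2.2.2.2.1 n hn
  refine ⟨K + ∑ i ∈ Finset.range (q + 1), |y i 0|, ?_, ?_⟩
  · have := Finset.sum_nonneg (s := Finset.range (q + 1)) (f := fun i => |y i 0|) fun i _ => abs_nonneg _
    linarith
  · intro i hi x
    have h3 := h (y i) (hy i) x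
    have h4 : |y i 0| ≤ ∑ i ∈ Finset.range (q + 1), |y i 0| :=
      Finset.single_le_sum (f := fun i => |y i 0|) (fun i _ => abs_nonneg _) (Finset.mem_range.2 (by omega))
    have h5 : y i x - x = (y i x - x - y i 0) + y i 0 := by ring
    rw [h5]
    exact (abs_add_le _ _).trans (add_le_add h3 h4)

/-- the simplex and its derivatives are continuous, uniformly in `x` -/
theorem d13_nhds (h2 : ST_D2) (n : ℕ) (hn : 1 ≤ n) (q : ℕ) (y : Sq) (hy : ∀ k, y k ∈ AA n) (u₀ : Fin q → ℝ)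
    (δ : ℝ) (hδ : 0 < δ) : ∀ᶠ u in 𝓝 u₀, (∀ x, |Phi q y u x - Phi q y u₀ x| ≤ δ) ∧
      ∀ a, ∀ x, |dPhi q y a u x - dPhi q y a u₀ x| ≤ δ := by
  obtain ⟨M, hM0, hM⟩ := d13_bound h2 n hn q y hy
  -- replace `y` by a sequence bounded everywhere
  let y' : Sq := fun i => if i ≤ q then y i else y 0
  have hM' : ∀ i, ∀ x, |y' i x - x| ≤ M := by
    intro i x
    by_cases h : i ≤ q
    · simp only [y', if_pos h]
      exact hM i h x
    · simp only [y', if_neg h]
      exact hM 0 (Nat.zero_le _) x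
  have hsum : ∀ (L : ℕ → ℝ) (x : ℝ), ∑ i ∈ Finset.range (q + 1), L i * y i x
      = ∑ i ∈ Finset.range (q + 1), L i * y' i x := by
    intro L x
    refine Finset.sum_congr rfl fun i hi => ?_
    have : i ≤ q := by
      have := Finset.mem_range.1 hi
      omega
    simp only [y', if_pos this]
  have e1 : ∀ᶠ u in 𝓝 u₀, ∑ i ∈ Finset.range (q + 1), |lam q i u - lam q i u₀| * M < δ := by
    have hc : Continuous fun u => ∑ i ∈ Finset.range (q + 1), |lam q i u - lam q i u₀| * M := by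
      apply continuous_finsetSum
      intro i _
      exact (((d13_lam_cd q i).continuous.sub continuous_const).abs).mul continuous_const
    have := hc.tendsto u₀
    apply this.eventually_lt_const
    simpa using hδ
  have e2 : ∀ a : Fin q, ∀ᶠ u in 𝓝 u₀, ∑ i ∈ Finset.range (q + 1), |dlam q i a u - dlam q i a u₀| * M < δ := by
    intro a
    have hc : Continuous fun u => ∑ i ∈ Finset.range (q + 1), |dlam q i a u - dlam q i a u₀| * M := by
      apply continuous_finsetSum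
      intro i _
      exact (((d13_dlam_cont q i a).sub continuous_const).abs).mul continuous_const
    have := hc.tendsto u₀
    apply this.eventually_lt_const
    simpa using hδ
  filter_upwards [e1, eventually_all.2 e2] with u h3 h4
  refine ⟨fun x => ?_, fun a x => ?_⟩
  · unfold Phi
    rw [hsum (fun i => lam q i u) x, hsum (fun i => lam q i u₀) x]
    exact (d13_close q y' M hM' (fun i => lam q i u) (fun i => lam q i u₀)
      (by rw [d13_lam_sum, d13_lam_sum]) x).trans h3.le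
  · unfold dPhi
    rw [hsum (fun i => dlam q i a u) x, hsum (fun i => dlam q i a u₀) x]
    exact (d13_close q y' M hM' (fun i => dlam q i a u) (fun i => dlam q i a u₀)
      (by rw [d13_dlam_sum, d13_dlam_sum]) x).trans (h4 a).le

theorem d13_zero_VV (n : ℕ) (y : ℝ → ℝ) (hy : y ∈ AA n) (K : ℝ) (hK : 0 ≤ K) : (0 : ℝ → ℝ) ∈ VV n K := by
  refine ⟨⟨y, hy, y, hy, ?_⟩, ?_⟩
  · funext x
    simp
  · intro x
    simpa using hK

/-- a common bound for all directions -/
theorem d13_dirs (h2 : ST_D2) (n : ℕ) (hn : 1 ≤ n) (q : ℕ) (y : Sq) (hy : ∀ k, y k ∈ AA n) :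
    ∃ K : ℝ, 0 ≤ K ∧ ∀ u ∈ Set.Icc (0 : Fin q → ℝ) 1, ∀ σ : Fin q → Fin q, ∀ b, dirs y u σ b ∈ VV n K := by
  obtain ⟨K, hK⟩ := h2.2.2.2.2.2.2.2 n hn q y hy
  rcases Nat.eq_zero_or_pos q with hq | hq
  · refine ⟨0, le_refl _, fun u hu σ b => ?_⟩
    have : ¬ b < q := by omega
    simp only [dirs, dif_neg this]
    exact d13_zero_VV n (y 0) (hy 0) 0 le_rfl
  · have h0 : (0 : Fin q → ℝ) ∈ Set.Icc (0 : Fin q → ℝ) 1 := ⟨le_refl _, fun i => by simp⟩
    have hK0 : 0 ≤ K := (abs_nonneg _).trans ((hK 0 h0 ⟨0, hq⟩).2 0)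
    refine ⟨K, hK0, fun u hu σ b => ?_⟩
    by_cases hb : b < q
    · simp only [dirs, dif_pos hb]
      exact hK u hu _
    · simp only [dirs, dif_neg hb]
      exact d13_zero_VV n (y 0) (hy 0) K hK0

theorem d13_Tp_mem {n j : ℕ} {x : ℝ → ℝ} {z : Sq} (hx : x ∈ AA n) (hz : ∀ k, z k ∈ AA n) (k : ℕ) :
    Tp j x z k ∈ AA n := by
  unfold Tp
  split_ifs
  · exact hx
  · exact hz _

/-- `f_j` is continuous on the cube -/
theorem d13_cont (h2 : ST_D2) (n P : ℕ) (hn : 1 ≤ n) (c : ℕ → Sq → Sq → ℂ) (hc : MC n P c) (j : ℕ) (hj : j ≤ P)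
    (y z : Sq) (hy : ∀ k, y k ∈ AA n) (hz : ∀ k, z k ∈ AA n) :
    ContinuousOn (fF c j y z) (Set.Icc (0 : Fin j → ℝ) 1) := by
  obtain ⟨K, hK0, hK⟩ := d13_dirs h2 n hn j y hy
  unfold fF
  apply continuousOn_finsetSum
  intro σ _
  apply ContinuousOn.mul continuousOn_const
  intro u₀ hu₀
  rw [Metric.continuousWithinAt_iff']
  intro ε hε
  obtain ⟨δ, hδ, huc⟩ := hc.uc j hj K (ε / 2) (by positivity)
  have e1 := d13_nhds h2 n hn j y hy u₀ δ hδ
  filter_upwards [nhdsWithin_le_nhds e1, self_mem_nhdsWithin] with u hu huI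
  rw [dist_eq_norm]
  refine lt_of_le_of_lt (huc _ _ _ _ (fun k => ?_) (fun k => ?_) (fun b => ?_) (fun b => ?_) ?_ ?_) (by linarith)
  · exact d13_Tp_mem (h2.2.2.2.2.2.2.1 n hn j y hy u huI) hz k
  · exact d13_Tp_mem (h2.2.2.2.2.2.2.1 n hn j y hy u₀ hu₀) hz k
  · exact hK u huI _ b
  · exact hK u₀ hu₀ _ b
  · intro k _ x
    unfold Tp
    split_ifs
    · exact hu.1 x
    · simp [hδ.le]
  · intro b hb x
    simp only [dirs, dif_pos hb]
    exact hu.2 _ x

theorem d13_int (h2 : ST_D2) (n P : ℕ) (hn : 1 ≤ n) (c : ℕ → Sq → Sq → ℂ) (hc : MC n P c) (j : ℕ) (hj : j ≤ P)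
    (y z : Sq) (hy : ∀ k, y k ∈ AA n) (hz : ∀ k, z k ∈ AA n) :
    IntegrableOn (fF c j y z) (Set.Icc (0 : Fin j → ℝ) 1) :=
  (d13_cont h2 n P hn c hc j hj y z hy hz).integrableOn_compact isCompact_Icc

/-- tails of a sequence -/
def d13_tl (j : ℕ) (y : Sq) : Sq := fun k => y (k + j)

/-- `Q_j` -/
def d13_Q (P : ℕ) (c : ℕ → Sq → Sq → ℂ) (y : Sq) (j : ℕ) : ℂ :=
  ∑ k ∈ Finset.range (P - j + 1), (-1 : ℂ) ^ k * cub j (fF c j y (rm k (d13_tl j y)))

theorem d13_rm_mem {n : ℕ} {y : Sq} (hy : ∀ k, y k ∈ AA n) (i k : ℕ) : rm i y k ∈ AA n := by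
  unfold rm
  split_ifs <;> exact hy _

theorem d13_tl_mem {n : ℕ} {y : Sq} (hy : ∀ k, y k ∈ AA n) (j k : ℕ) : d13_tl j y k ∈ AA n := hy _

theorem d13_fF_congr {P : ℕ} {n : ℕ} {c : ℕ → Sq → Sq → ℂ} (hc : MC n P c) {j : ℕ} (hj : j ≤ P) {y y' z z' : Sq}
    (h : ∀ k ≤ j, y k = y' k) (h' : ∀ k, k + (j + 1) ≤ P → z k = z' k) : fF c j y z = fF c j y' z' := by
  have h1 : ∀ u, Phi j y u = Phi j y' u := by
    intro u
    funext x
    unfold Phi
    refine Finset.sum_congr rfl fun i hi => ?_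
    rw [h i (by have := Finset.mem_range.1 hi; omega)]
  have h3 : ∀ a u, dPhi j y a u = dPhi j y' a u := by
    intro a u
    funext x
    unfold dPhi
    refine Finset.sum_congr rfl fun i hi => ?_
    rw [h i (by have := Finset.mem_range.1 hi; omega)]
  funext u
  unfold fF
  refine Finset.sum_congr rfl fun σ _ => ?_
  congr 1
  have h4 : dirs y u σ = dirs y' u σ := by
    funext b
    unfold dirs
    split_ifs
    · rw [h3]
    · rfl
  rw [h4, h1]
  apply hc.depΦ j hj
  intro k hk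
  unfold Tp
  split_ifs with h5
  · rfl
  · exact h' _ (by omega)

/-- (M2) for the forms: pointwise -/
theorem d13_m2 (h2 : ST_D2) (n P : ℕ) (hn : 1 ≤ n) (c : ℕ → Sq → Sq → ℂ) (hc : MC n P c) (j : ℕ) (hj : j + 1 ≤ P)
    (y z : Sq) (hy : ∀ k, y k ∈ AA n) (hz : ∀ k, z k ∈ AA n) (u : Fin (j + 1) → ℝ) (hu : u ∈ Set.Icc (0 : Fin (j + 1) → ℝ) 1) :
    gF c j y z u = ∑ k ∈ Finset.range (P - (j + 1) + 1), (-1 : ℂ) ^ k * fF c (j + 1) y (rm k z) u := by
  obtain ⟨K, hK0, hK⟩ := d13_dirs h2 n hn (j + 1) y hy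
  have hx := h2.2.2.2.2.2.2.1 n hn (j + 1) y hy u hu
  set x := Phi (j + 1) y u with hxdef
  unfold gF fF
  simp_rw [Finset.mul_sum]
  rw [Finset.sum_comm]
  refine Finset.sum_congr rfl fun σ _ => ?_
  have h3 := hc.m2 (j + 1) hj (Tp (j + 1) x z) (dirs y u σ) K (d13_Tp_mem hx hz) (hK u hu σ)
  have e1 : Finset.Icc (j + 1) (P + 1) = insert (j + 1) (Finset.Ico (j + 2) (P + 2)) := by
    ext a
    simp only [Finset.mem_Icc, Finset.mem_insert, Finset.mem_Ico]
    omega
  rw [e1, Finset.sum_insert (by simp)] at h3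
  have e2 : ∑ i ∈ Finset.Ico (j + 2) (P + 2), (-1 : ℂ) ^ i * c (j + 1) (rm i (Tp (j + 1) x z)) (dirs y u σ)
      = ∑ k ∈ Finset.range (P - (j + 1) + 1), (-1 : ℂ) ^ (j + 2 + k) * c (j + 1) (Tp (j + 1) x (rm k z)) (dirs y u σ) := by
    rw [Finset.sum_Ico_eq_sum_range]
    have : P + 2 - (j + 2) = P - (j + 1) + 1 := by omega
    rw [this]
    refine Finset.sum_congr rfl fun k _ => ?_
    congr 2
    funext m
    unfold rm Tp
    by_cases a1 : m < j + 2 + k
    · by_cases a2 : m ≤ j + 1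
      · simp only [if_pos a1, if_pos a2]
      · have a3 : m - (j + 1 + 1) < k := by omega
        simp only [if_pos a1, if_neg a2, if_pos a3]
    · have a2 : ¬ m ≤ j + 1 := by omega
      have a3 : ¬ m - (j + 1 + 1) < k := by omega
      have a4 : ¬ m + 1 ≤ j + 1 := by omega
      have a5 : m + 1 - (j + 1 + 1) = m - (j + 1 + 1) + 1 := by omega
      simp only [if_neg a1, if_neg a2, if_neg a3, if_neg a4, a5]
  have e3 : rm (j + 1) (Tp (j + 1) x z) = Tp j x z := by
    funext m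
    unfold rm Tp
    by_cases a1 : m < j + 1
    · have a2 : m ≤ j + 1 := by omega
      have a3 : m ≤ j := by omega
      simp only [if_pos a1, if_pos a2, if_pos a3]
    · have a2 : ¬ m + 1 ≤ j + 1 := by omega
      have a3 : ¬ m ≤ j := by omega
      have a4 : m + 1 - (j + 1 + 1) = m - (j + 1) := by omega
      simp only [if_neg a1, if_neg a2, if_neg a3, a4]
  rw [e2, e3] at h3
  have e4 : ∑ k ∈ Finset.range (P - (j + 1) + 1), (-1 : ℂ) ^ (j + 2 + k) * c (j + 1) (Tp (j + 1) x (rm k z)) (dirs y u σ)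
      = (-1 : ℂ) ^ (j + 2) * ∑ k ∈ Finset.range (P - (j + 1) + 1), (-1 : ℂ) ^ k * c (j + 1) (Tp (j + 1) x (rm k z)) (dirs y u σ) := by
    rw [Finset.mul_sum]
    refine Finset.sum_congr rfl fun k _ => ?_
    rw [pow_add]
    ring
  rw [e4] at h3
  have h5 : ((-1 : ℂ) ^ (j + 1)) ≠ 0 := pow_ne_zero _ (by norm_num)
  have h6 : (-1 : ℂ) ^ (j + 1) * (c (j + 1) (Tp j x z) (dirs y u σ)
      - ∑ k ∈ Finset.range (P - (j + 1) + 1), (-1 : ℂ) ^ k * c (j + 1) (Tp (j + 1) x (rm k z)) (dirs y u σ)) = 0 := by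
    rw [← h3]
    ring
  have h7 := (mul_eq_zero.1 h6).resolve_left h5
  rw [sub_eq_zero.1 h7, Finset.mul_sum]
  refine Finset.sum_congr rfl fun k _ => ?_
  ring

/-- integrated form of (M2) -/
theorem d13_Q_succ (h2 : ST_D2) (n P : ℕ) (hn : 1 ≤ n) (c : ℕ → Sq → Sq → ℂ) (hc : MC n P c) (j : ℕ) (hj : j + 1 ≤ P)
    (y : Sq) (hy : ∀ k, y k ∈ AA n) :
    cub (j + 1) (gF c j y (d13_tl (j + 1) y)) = d13_Q P c y (j + 1) := by
  unfold d13_Q cub
  rw [setIntegral_congr_fun measurableSet_Icc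
    (fun u hu => d13_m2 h2 n P hn c hc j hj y (d13_tl (j + 1) y) hy (d13_tl_mem hy _) u hu)]
  rw [integral_finsetSum]
  · refine Finset.sum_congr rfl fun k _ => ?_
    rw [integral_const_mul]
  · intro k _
    exact (d13_int h2 n P hn c hc (j + 1) hj y _ hy (d13_rm_mem (d13_tl_mem hy _) k)).const_mul _

theorem d13_cub0 (f : (Fin 0 → ℝ) → ℂ) : cub 0 f = f 0 := by
  unfold cub
  have h1 : ∀ u : Fin 0 → ℝ, f u = f 0 := fun u => by rw [Subsingleton.elim u 0]
  rw [setIntegral_congr_fun measurableSet_Icc (fun u _ => h1 u), setIntegral_const]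
  have : volume.real (Set.Icc (0 : Fin 0 → ℝ) 1) = 1 := by
    rw [Measure.real, Real.volume_Icc_pi]
    simp
  rw [this, one_smul]

theorem d13_Q_zero (n P : ℕ) (c : ℕ → Sq → Sq → ℂ) (hc : MC n P c)
    (y : Sq) (hy : ∀ k, y k ∈ AA n) : c 0 y (fun _ _ => 0) = d13_Q P c y 0 := by
  unfold d13_Q
  have hPhi : Phi 0 y 0 = y 0 := by
    funext x
    unfold Phi lam
    simp
  have h1 : ∀ k, cub 0 (fF c 0 y (rm k (d13_tl 0 y))) = c 0 (rm (k + 1) (Tp 0 (y 0) y)) (fun _ _ => 0) := by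
    intro k
    rw [d13_cub0]
    unfold fF
    have : (Finset.univ : Finset (Equiv.Perm (Fin 0))) = {1} := by
      ext a
      simp [Subsingleton.elim a 1]
    rw [this, Finset.sum_singleton]
    simp only [Equiv.Perm.sign_one, Units.val_one, Int.cast_one, one_mul]
    rw [hPhi]
    have e1 : Tp 0 (y 0) (rm k (d13_tl 0 y)) = rm (k + 1) (Tp 0 (y 0) y) := by
      funext m
      unfold rm Tp d13_tl
      by_cases a1 : m ≤ 0
      · have a2 : m < k + 1 := by omega
        simp only [if_pos a1, if_pos a2]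
      · by_cases a2 : m < k + 1
        · have a3 : m - (0 + 1) < k := by omega
          simp only [if_neg a1, if_pos a2, if_pos a3, add_zero]
        · have a3 : ¬ m - (0 + 1) < k := by omega
          have a4 : ¬ m + 1 ≤ 0 := by omega
          have a5 : m - (0 + 1) + 1 + 0 = m + 1 - (0 + 1) := by omega
          simp only [if_neg a1, if_neg a2, if_neg a3, if_neg a4, a5]
          rfl
    rw [e1]
    apply hc.depv 0 (Nat.zero_le _)
    intro b hb
    omega
  simp_rw [h1]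
  have h3 := hc.m2 0 (Nat.zero_le _) (Tp 0 (y 0) y) (fun _ _ => 0) 0 (d13_Tp_mem (hy 0) hy)
    (fun b => d13_zero_VV n (y 0) (hy 0) 0 le_rfl)
  have e1 : Finset.Icc 0 (P + 1) = Finset.range (P + 1 + 1) := by
    ext a
    simp only [Finset.mem_Icc, Finset.mem_range]
    omega
  rw [e1, Finset.sum_range_succ'] at h3
  have e2 : rm 0 (Tp 0 (y 0) y) = y := by
    funext m
    unfold rm Tp
    have a1 : ¬ m < 0 := by omega
    have a2 : ¬ m + 1 ≤ 0 := by omega
    simp only [if_neg a1, if_neg a2]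
    congr 1
  rw [e2, pow_zero, one_mul] at h3
  have h4 : c 0 y (fun _ _ => 0) = - ∑ k ∈ Finset.range (P + 1), (-1 : ℂ) ^ (k + 1) * c 0 (rm (k + 1) (Tp 0 (y 0) y)) (fun _ _ => 0) := by
    rw [eq_neg_iff_add_eq_zero, add_comm]
    exact h3
  rw [h4, ← Finset.sum_neg_distrib]
  refine Finset.sum_congr rfl fun k _ => ?_
  rw [pow_succ]
  ring

/-- the top term does not depend on `z` -/
theorem d13_Q_top (n P : ℕ) (c : ℕ → Sq → Sq → ℂ) (hc : MC n P c) (y z : Sq) :
    d13_Q P c y P = cub P (fF c P y z) := by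
  unfold d13_Q
  rw [Nat.sub_self, zero_add, Finset.sum_range_one, pow_zero, one_mul]
  congr 1
  apply d13_fF_congr hc le_rfl (fun _ _ => rfl)
  intro k hk
  omega

/-- coboundary of one term of `B` -/
theorem d13_dB (h2 : ST_D2) (n P : ℕ) (hn : 1 ≤ n) (c : ℕ → Sq → Sq → ℂ) (hc : MC n P c) (j : ℕ) (hj : j < P)
    (y : Sq) (hy : ∀ k, y k ∈ AA n) :
    ∑ i ∈ Finset.range (P + 1), (-1 : ℂ) ^ i * cub j (fF c j (rm i y) (fun k => rm i y (k + j)))
      = (-1 : ℂ) ^ j * (d13_Q P c y j + d13_Q P c y (j + 1)) := by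
  -- split the sum at `j`
  have e0 : P + 1 = (j + 1) + (P - j) := by omega
  rw [e0, Finset.sum_range_add]
  have e1 : ∀ i ∈ Finset.range (j + 1), (-1 : ℂ) ^ i * cub j (fF c j (rm i y) (fun k => rm i y (k + j)))
      = (-1 : ℂ) ^ i * cub j (fF c j (rm i y) (d13_tl (j + 1) y)) := by
    intro i hi
    congr 3
    funext k
    have : ¬ k + j < i := by
      have := Finset.mem_range.1 hi
      omega
    unfold rm d13_tl
    rw [if_neg this]
    rfl
  rw [Finset.sum_congr rfl e1]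
  have h3 := hc.m3 j hj y (d13_tl (j + 1) y) hy (d13_tl_mem hy _)
  rw [Finset.sum_range_succ] at h3
  rw [d13_Q_succ h2 n P hn c hc j (by omega) y hy] at h3
  have e2 : cub j (fF c j (rm (j + 1) y) (d13_tl (j + 1) y)) = cub j (fF c j y (rm 0 (d13_tl j y))) := by
    congr 1
    apply d13_fF_congr hc hj.le
    · intro k hk
      unfold rm
      rw [if_pos (by omega)]
    · intro k _
      unfold rm d13_tl
      rw [if_neg (by omega)]
      congr 1
      omega
  rw [e2] at h3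
  have e3 : ∀ k ∈ Finset.range (P - j), (-1 : ℂ) ^ (j + 1 + k) *
        cub j (fF c j (rm (j + 1 + k) y) (fun m => rm (j + 1 + k) y (m + j)))
      = (-1 : ℂ) ^ j * ((-1 : ℂ) ^ (k + 1) * cub j (fF c j y (rm (k + 1) (d13_tl j y)))) := by
    intro k _
    have : cub j (fF c j (rm (j + 1 + k) y) (fun m => rm (j + 1 + k) y (m + j)))
        = cub j (fF c j y (rm (k + 1) (d13_tl j y))) := by
      congr 1
      apply d13_fF_congr hc hj.le
      · intro m hm
        unfold rm
        rw [if_pos (by omega)]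
      · intro m _
        unfold rm d13_tl
        by_cases a1 : m < k + 1
        · have a2 : m + j < j + 1 + k := by omega
          rw [if_pos a1, if_pos a2]
        · have a2 : ¬ m + j < j + 1 + k := by omega
          rw [if_neg a1, if_neg a2]
          congr 1
          omega
    rw [this]
    ring
  rw [Finset.sum_congr rfl e3, ← Finset.mul_sum]
  have e4 : d13_Q P c y j = ∑ k ∈ Finset.range (P - j), (-1 : ℂ) ^ (k + 1) * cub j (fF c j y (rm (k + 1) (d13_tl j y)))
      + cub j (fF c j y (rm 0 (d13_tl j y))) := by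
    unfold d13_Q
    rw [Finset.sum_range_succ', pow_zero, one_mul]
  rw [e4]
  have h5 : ∑ i ∈ Finset.range (j + 1), (-1 : ℂ) ^ i * cub j (fF c j (rm i y) (d13_tl (j + 1) y))
      = (-1 : ℂ) ^ j * d13_Q P c y (j + 1) - (-1 : ℂ) ^ (j + 1) * cub j (fF c j y (rm 0 (d13_tl j y))) := by
    rw [← h3]
    ring
  rw [h5]
  ring

theorem d13_tele (P : ℕ) (Q : ℕ → ℂ) :
    ∑ j ∈ Finset.range P, (-1 : ℂ) ^ j * (Q j + Q (j + 1)) = Q 0 - (-1 : ℂ) ^ P * Q P := by
  induction P with
  | zero => simp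
  | succ m ih =>
    rw [Finset.sum_range_succ, ih]
    ring

/-- D13: the staircase lemma -/
theorem st_D13 (h2 : ST_D2) : ST_D13 := by
  intro n p c hn hc y z hy
  rw [d13_Q_zero n (p + 1) c hc y hy, ← d13_Q_top n (p + 1) c hc y z]
  have h3 : dlt p (BB (p + 1) c) y = d13_Q (p + 1) c y 0 - (-1 : ℂ) ^ (p + 1) * d13_Q (p + 1) c y (p + 1) := by
    rw [← d13_tele]
    unfold dlt BB
    simp_rw [Finset.mul_sum]
    rw [Finset.sum_comm]
    refine Finset.sum_congr rfl fun j hj => ?_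
    exact d13_dB h2 n (p + 1) hn c hc j (Finset.mem_range.1 hj) y hy
  rw [h3]
  ring

end

end Pool.Agent.Helper67.DO

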