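import Pool.Agent.Helper67.DO.StmtsW
import Pool.Agent.Helper67.DO.BaseE

/-!
# Iterated contour integrals: representation by integrals over cubes, linearity, continuity, order of variables
-/

namespace Pool.Agent.Helper67.DO

open scoped BigOperators Real
open MeasureTheory Filter Topology

noncomputable section

/-! ### paths -/

/-- clamp to the unit interval -/
def wl_cl (x : ℝ) : ℝ := max 0 (min 1 x)

theorem wl_cl_cont : Continuous wl_cl := continuous_const.max (continuous_const.min continuous_id)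

theorem wl_cl_nonneg (x : ℝ) : 0 ≤ wl_cl x := le_max_left _ _

theorem wl_cl_le (x : ℝ) : wl_cl x ≤ 1 := max_le zero_le_one (min_le_left _ _)

theorem wl_cl_eq {x : ℝ} (h : x ∈ Set.Icc (0 : ℝ) 1) : wl_cl x = x := by
  unfold wl_cl
  rw [min_eq_right h.2, max_eq_right h.1]

/-- the point `x + i y` -/
def wl_pt (x y : ℝ) : ℂ := (x : ℂ) + (y : ℂ) * Complex.I

theorem wl_pt_re (x y : ℝ) : (wl_pt x y).re = x := by simp [wl_pt]
theorem wl_pt_im (x y : ℝ) : (wl_pt x y).im = y := by simp [wl_pt]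

theorem wl_pt_cont {X : Type*} [TopologicalSpace X] {f g : X → ℝ} (hf : Continuous f) (hg : Continuous g) :
    Continuous fun t => wl_pt (f t) (g t) :=
  (Complex.continuous_ofReal.comp hf).add ((Complex.continuous_ofReal.comp hg).mul continuous_const)

/-- sign `-1` for `b = 0`, `1` for `b = 1` -/
def wl_s (b : Fin 2) : ℝ := if b = 0 then -1 else 1

theorem wl_s_abs (b : Fin 2) : |wl_s b| = 1 := by
  unfold wl_s
  split_ifs <;> simp

open Classical in
/-- coefficients -/
def wl_c (N : ℕ) (P G : Set ℤ) (r σ : ℝ) : Pc N → Fin 2 → ℂ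
  | Sum.inl l, b => if ((l : ℕ) : ℤ) ∈ G then 0 else -(wl_s b : ℂ) * ((1 / N - 2 * r : ℝ) : ℂ)
  | Sum.inr l, b => if ((l : ℕ) : ℤ) ∈ P then
      (if b = 0 then (if (((l : ℕ) : ℤ) - 1) ∈ G then 0 else Complex.I * ((2 * σ : ℝ) : ℂ))
        else (if ((l : ℕ) : ℤ) ∈ G then 0 else -(Complex.I * ((2 * σ : ℝ) : ℂ))))
      else -(wl_s b : ℂ) * ((2 * r : ℝ) : ℂ)

open Classical in
/-- paths -/
def wl_g (N : ℕ) (P : Set ℤ) (r σ : ℝ) : Pc N → Fin 2 → ℝ → ℂ
  | Sum.inl l, b, t => wl_pt (((l : ℕ) : ℝ) / N + r + (1 / N - 2 * r) * wl_cl t) (wl_s b * σ)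
  | Sum.inr l, b, t => if ((l : ℕ) : ℤ) ∈ P then wl_pt (((l : ℕ) : ℝ) / N + wl_s b * r) (-σ + 2 * σ * wl_cl t)
      else wl_pt (((l : ℕ) : ℝ) / N - r + 2 * r * wl_cl t) (wl_s b * σ)

theorem wl_g_cont (N : ℕ) (P : Set ℤ) (r σ : ℝ) (p : Pc N) (b : Fin 2) : Continuous (wl_g N P r σ p b) := by
  cases p with
  | inl l => exact wl_pt_cont (continuous_const.add (continuous_const.mul wl_cl_cont)) continuous_const
  | inr l =>
    by_cases hP : ((l : ℕ) : ℤ) ∈ P
    · have e : wl_g N P r σ (Sum.inr l) b = fun t => wl_pt (((l : ℕ) : ℝ) / N + wl_s b * r) (-σ + 2 * σ * wl_cl t) := by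
        funext t
        simp only [wl_g, if_pos hP]
      rw [e]
      exact wl_pt_cont continuous_const (continuous_const.add (continuous_const.mul wl_cl_cont))
    · have e : wl_g N P r σ (Sum.inr l) b = fun t => wl_pt (((l : ℕ) : ℝ) / N - r + 2 * r * wl_cl t) (wl_s b * σ) := by
        funext t
        simp only [wl_g, if_neg hP]
      rw [e]
      exact wl_pt_cont (continuous_const.add (continuous_const.mul wl_cl_cont)) continuous_const

theorem wl_mem {N : ℕ} {P G : Set ℤ} {r σ : ℝ} (hN : 0 < N) (hr : 0 < r) (hr' : r < 1 / (4 * N)) (hσ : 0 < σ)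
    (p : Pc N) (b : Fin 2) (h : wl_c N P G r σ p b ≠ 0) (t : ℝ) : wl_g N P r σ p b t ∈ cP N P G r σ p := by
  have hN' : (0 : ℝ) < N := Nat.cast_pos.2 hN
  have h0 := wl_cl_nonneg t
  have h1 := wl_cl_le t
  have hL : 0 < 1 / (N : ℝ) - 2 * r := by
    have e : 1 / (4 * (N : ℝ)) = 1 / N / 4 := by field_simp
    rw [e] at hr'
    have : 0 < 1 / (N : ℝ) := by positivity
    linarith
  cases p with
  | inl l =>
    have hG : ((l : ℕ) : ℤ) ∉ G := by
      intro hG
      apply h
      simp only [wl_c, if_pos hG]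
    refine ⟨hG, ?_, ?_, ?_⟩
    · simp only [wl_g, wl_pt_im]
      rw [abs_mul, wl_s_abs, one_mul, abs_of_pos hσ]
    · simp only [wl_g, wl_pt_re]
      nlinarith
    · simp only [wl_g, wl_pt_re]
      have e : (((l : ℕ) : ℝ) + 1) / N - r = ((l : ℕ) : ℝ) / N + r + (1 / N - 2 * r) := by
        field_simp
        ring
      rw [e]
      nlinarith
  | inr l =>
    by_cases hP : ((l : ℕ) : ℤ) ∈ P
    · by_cases hb : b = 0
      · have hG : (((l : ℕ) : ℤ) - 1) ∉ G := by
          intro hG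
          apply h
          simp only [wl_c, if_pos hP, if_pos hb, if_pos hG]
        refine Or.inl (Or.inr ⟨hP, hG, ?_, ?_⟩)
        · simp only [wl_g, if_pos hP, wl_pt_im]
          rw [abs_le]
          constructor <;> nlinarith
        · simp only [wl_g, if_pos hP, wl_pt_re, wl_s, if_pos hb]
          ring
      · have hG : ((l : ℕ) : ℤ) ∉ G := by
          intro hG
          apply h
          simp only [wl_c, if_pos hP, if_neg hb, if_pos hG]
        refine Or.inr ⟨hP, hG, ?_, ?_⟩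
        · simp only [wl_g, if_pos hP, wl_pt_im]
          rw [abs_le]
          constructor <;> nlinarith
        · simp only [wl_g, if_pos hP, wl_pt_re, wl_s, if_neg hb]
          ring
    · refine Or.inl (Or.inl ⟨hP, ?_, ?_⟩)
      · simp only [wl_g, if_neg hP, wl_pt_im]
        rw [abs_mul, wl_s_abs, one_mul, abs_of_pos hσ]
      · simp only [wl_g, if_neg hP, wl_pt_re]
        rw [abs_le]
        constructor <;> nlinarith

/-! ### one variable -/

theorem wl_seg (φ : ℝ → ℂ) (A L : ℝ) :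
    ∫ x in A..(A + L), φ x = (L : ℂ) * ∫ t in Set.Icc (0 : ℝ) 1, φ (A + L * wl_cl t) := by
  have h1 := intervalIntegral.smul_integral_comp_mul_add φ L A (a := 0) (b := 1)
  rw [mul_zero, zero_add, mul_one] at h1
  rw [add_comm A L, ← h1, intervalIntegral.integral_of_le zero_le_one, integral_Icc_eq_integral_Ioc,
    Complex.real_smul]
  congr 1
  refine setIntegral_congr_fun measurableSet_Ioc fun t ht => ?_
  show φ (L * t + A) = φ (A + L * wl_cl t)
  rw [wl_cl_eq ⟨ht.1.le, ht.2⟩, add_comm]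

theorem wl_seg2 (f : ℂ → ℂ) (A L σ : ℝ) (hL : 0 ≤ L)
    (h1 : ContinuousOn (fun x : ℝ => f (wl_pt x (-σ))) (Set.Icc A (A + L)))
    (h2 : ContinuousOn (fun x : ℝ => f (wl_pt x σ)) (Set.Icc A (A + L))) :
    ∫ x in A..(A + L), (f (x - σ * Complex.I) - f (x + σ * Complex.I))
      = ∑ b : Fin 2, (-(wl_s b : ℂ) * (L : ℂ)) * ∫ t in Set.Icc (0 : ℝ) 1, f (wl_pt (A + L * wl_cl t) (wl_s b * σ)) := by
  have e : ∀ x : ℝ, f (x - σ * Complex.I) - f (x + σ * Complex.I) = f (wl_pt x (-σ)) - f (wl_pt x σ) := by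
    intro x
    unfold wl_pt
    congr 2
    push_cast
    ring
  simp_rw [e]
  have hle : A ≤ A + L := by linarith
  rw [intervalIntegral.integral_sub (h1.intervalIntegrable_of_Icc hle) (h2.intervalIntegrable_of_Icc hle)]
  rw [wl_seg (fun x => f (wl_pt x (-σ))) A L, wl_seg (fun x => f (wl_pt x σ)) A L, Fin.sum_univ_two]
  simp only [wl_s, if_true, one_ne_zero, if_false]
  push_cast
  rw [neg_one_mul]
  ring_nf

theorem wl_rep1 {N : ℕ} {P G : Set ℤ} {r σ : ℝ} (hN : 0 < N) (hr : 0 < r) (hr' : r < 1 / (4 * N)) (hσ : 0 < σ)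
    (p : Pc N) (f : ℂ → ℂ) (hf : ContinuousOn f (cP N P G r σ p)) :
    pI N P G r σ p f = ∑ b : Fin 2, wl_c N P G r σ p b * ∫ x in Set.Icc (0 : ℝ) 1, f (wl_g N P r σ p b x) := by
  have hN' : (0 : ℝ) < N := Nat.cast_pos.2 hN
  have hL : 0 < 1 / (N : ℝ) - 2 * r := by
    have e : 1 / (4 * (N : ℝ)) = 1 / N / 4 := by field_simp
    rw [e] at hr'
    have : 0 < 1 / (N : ℝ) := by positivity
    linarith
  cases p with
  | inl l =>
    by_cases hG : ((l : ℕ) : ℤ) ∈ G
    · simp only [pI, wl_c, if_pos hG, zero_mul, Finset.sum_const_zero]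
    · simp only [pI, wl_c, if_neg hG, wl_g]
      unfold gapI
      have e : (((l : ℕ) : ℤ) : ℝ) = ((l : ℕ) : ℝ) := by push_cast; rfl
      have e2 : ((((l : ℕ) : ℤ) : ℝ) + 1) / N - r = (((l : ℕ) : ℤ) : ℝ) / N + r + (1 / N - 2 * r) := by
        field_simp
        ring
      rw [e2, wl_seg2 f _ _ σ hL.le, e]
      all_goals
        refine hf.comp (wl_pt_cont continuous_id continuous_const).continuousOn ?_
        intro x hx
        rw [← e2, e] at hx
        refine ⟨hG, ?_, ?_, ?_⟩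
        · rw [wl_pt_im]
          simp [abs_of_pos hσ]
        · rw [wl_pt_re]
          exact hx.1
        · rw [wl_pt_re]
          exact hx.2
  | inr l =>
    by_cases hP : ((l : ℕ) : ℤ) ∈ P
    · simp only [pI, wl_c, if_pos hP, wl_g]
      rw [Fin.sum_univ_two]
      simp only [if_true, one_ne_zero, if_false, wl_s]
      have e : (((l : ℕ) : ℤ) : ℝ) = ((l : ℕ) : ℝ) := by push_cast; rfl
      have key : ∀ a : ℝ, Complex.I * ∫ y in (-σ)..σ, f ((a : ℝ) + y * Complex.I)
          = Complex.I * ((2 * σ : ℝ) : ℂ) * ∫ t in Set.Icc (0 : ℝ) 1, f (wl_pt a (-σ + 2 * σ * wl_cl t)) := by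
        intro a
        have h1 := wl_seg (fun y => f (wl_pt a y)) (-σ) (2 * σ)
        have h2 : -σ + 2 * σ = σ := by ring
        rw [h2] at h1
        have h3 : ∫ y in (-σ)..σ, f ((a : ℝ) + y * Complex.I) = ∫ y in (-σ)..σ, f (wl_pt a y) := rfl
        rw [h3, h1]
        ring
      have v1 : verL N r σ ((l : ℕ) : ℤ) f = Complex.I * ((2 * σ : ℝ) : ℂ) *
          ∫ t in Set.Icc (0 : ℝ) 1, f (wl_pt (((l : ℕ) : ℝ) / N + -1 * r) (-σ + 2 * σ * wl_cl t)) := by
        unfold verL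
        rw [key, e]
        congr 3
        funext t
        congr 2
        ring
      have v2 : verR N r σ ((l : ℕ) : ℤ) f = Complex.I * ((2 * σ : ℝ) : ℂ) *
          ∫ t in Set.Icc (0 : ℝ) 1, f (wl_pt (((l : ℕ) : ℝ) / N + 1 * r) (-σ + 2 * σ * wl_cl t)) := by
        unfold verR
        rw [key, e]
        congr 3
        funext t
        congr 2
        ring
      rw [v1, v2]
      split_ifs <;> ring
    · simp only [pI, wl_c, if_neg hP, wl_g]
      unfold capI
      have e : (((l : ℕ) : ℤ) : ℝ) = ((l : ℕ) : ℝ) := by push_cast; rfl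
      have e2 : (((l : ℕ) : ℤ) : ℝ) / N + r = (((l : ℕ) : ℤ) : ℝ) / N - r + 2 * r := by ring
      rw [e2, wl_seg2 f _ _ σ (by linarith), e]
      all_goals
        refine hf.comp (wl_pt_cont continuous_id continuous_const).continuousOn ?_
        intro x hx
        rw [e] at hx
        refine Or.inl (Or.inl ⟨hP, ?_, ?_⟩)
        · rw [wl_pt_im]
          simp [abs_of_pos hσ]
        · rw [wl_pt_re, abs_le]
          constructor
          · linarith [hx.1]
          · linarith [hx.2]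

/-! ### integrals over the cube -/

theorem wl_cube_vol (q : ℕ) : volume.real (Set.Icc (0 : Fin q → ℝ) 1) = 1 := by
  rw [Measure.real, Real.volume_Icc_pi]
  simp

theorem wl_cont_cube {X : Type*} [TopologicalSpace X] {q : ℕ} (f : X → (Fin q → ℝ) → ℂ)
    (hf : Continuous (Function.uncurry f)) :
    Continuous (fun x => ∫ y in Set.Icc (0 : Fin q → ℝ) 1, f x y) := by
  rw [continuous_iff_continuousAt]
  intro x0
  rw [ContinuousAt, Metric.tendsto_nhds]
  intro ε hε
  have h1 : ∀ᶠ x in 𝓝 x0, ∀ y ∈ Set.Icc (0 : Fin q → ℝ) 1, ‖f x y - f x0 y‖ < ε / 2 := by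
    refine isCompact_Icc.eventually_forall_of_forall_eventually fun y _ => ?_
    have hc : Continuous fun z : X × (Fin q → ℝ) => ‖f z.1 z.2 - f x0 z.2‖ :=
      (hf.sub (hf.comp (continuous_const.prodMk continuous_snd))).norm
    have := hc.tendsto (x0, y)
    apply this.eventually_lt_const
    simpa using half_pos hε
  filter_upwards [h1] with x hx
  rw [dist_eq_norm]
  have hi : ∀ x, IntegrableOn (f x) (Set.Icc (0 : Fin q → ℝ) 1) := fun x =>
    (Continuous.continuousOn (hf.comp (continuous_const.prodMk continuous_id))).integrableOn_compact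
      isCompact_Icc
  rw [← integral_sub (hi x) (hi x0)]
  have h2 := norm_setIntegral_le_of_norm_le_const (μ := volume) (s := Set.Icc (0 : Fin q → ℝ) 1)
    (f := fun y => f x y - f x0 y) (C := ε / 2) (by
      rw [Real.volume_Icc_pi]
      simp) (fun y hy => (hx y hy).le)
  rw [wl_cube_vol, mul_one] at h2
  linarith

theorem wl_cube_succ {q : ℕ} (Φ : (Fin (q + 1) → ℝ) → ℂ) (hΦ : Continuous Φ) :
    ∫ x in Set.Icc (0 : ℝ) 1, ∫ y in Set.Icc (0 : Fin q → ℝ) 1, Φ (Fin.cons x y)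
      = ∫ x in Set.Icc (0 : Fin (q + 1) → ℝ) 1, Φ x := by
  have hmp := volume_preserving_piFinSuccAbove (fun _ : Fin (q + 1) => ℝ) 0
  have e1 : ∫ x in Set.Icc (0 : Fin (q + 1) → ℝ) 1, Φ x
      = ∫ p in (Set.Icc (0 : ℝ) 1) ×ˢ (Set.Icc (0 : Fin q → ℝ) 1), Φ (Fin.cons p.1 p.2) := by
    have h3 := hmp.setIntegral_preimage_emb (MeasurableEquiv.measurableEmbedding _)
      (fun p : ℝ × (Fin q → ℝ) => Φ (Fin.cons p.1 p.2)) ((Set.Icc (0 : ℝ) 1) ×ˢ (Set.Icc (0 : Fin q → ℝ) 1))
    rw [← h3]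
    have h4 : (MeasurableEquiv.piFinSuccAbove (fun _ : Fin (q + 1) => ℝ) 0) ⁻¹'
        ((Set.Icc (0 : ℝ) 1) ×ˢ (Set.Icc (0 : Fin q → ℝ) 1)) = Set.Icc (0 : Fin (q + 1) → ℝ) 1 := by
      ext x
      simp only [Set.mem_preimage, Set.mem_prod, Set.mem_Icc, Pi.le_def, Pi.zero_apply, Pi.one_apply]
      constructor
      · rintro ⟨⟨a1, a2⟩, b1, b2⟩
        constructor
        · intro i
          refine Fin.cases a1 (fun j => ?_) i
          exact b1 j
        · intro i
          refine Fin.cases a2 (fun j => ?_) i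
          exact b2 j
      · rintro ⟨a, b⟩
        exact ⟨⟨a 0, b 0⟩, fun j => a j.succ, fun j => b j.succ⟩
    rw [h4]
    refine setIntegral_congr_fun measurableSet_Icc fun x _ => ?_
    show Φ x = Φ (Fin.cons (x 0) (fun j => x ((0 : Fin (q + 1)).succAbove j)))
    congr 1
    funext i
    refine Fin.cases rfl (fun j => ?_) i
    simp
  rw [e1]
  have hc : Continuous fun p : ℝ × (Fin q → ℝ) => Φ (Fin.cons p.1 p.2) := by
    apply hΦ.comp
    rw [continuous_pi_iff]
    intro i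
    refine Fin.cases ?_ (fun j => ?_) i
    · simpa using continuous_fst
    · simp only [Fin.cons_succ]
      exact (continuous_apply j).comp continuous_snd
  have hi : IntegrableOn (fun p : ℝ × (Fin q → ℝ) => Φ (Fin.cons p.1 p.2))
      ((Set.Icc (0 : ℝ) 1) ×ˢ (Set.Icc (0 : Fin q → ℝ) 1)) (volume.prod volume) :=
    hc.continuousOn.integrableOn_compact (isCompact_Icc.prod isCompact_Icc)
  exact (setIntegral_prod _ hi).symm

/-! ### iterated integrals -/

/-- the contour set of a tuple of pieces -/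
def wl_C (N : ℕ) (P G : Set ℤ) (r σ : ℝ) {q : ℕ} (τ : Fin q → Pc N) : Set (Fin q → ℂ) :=
  {ζ | ∀ j, ζ j ∈ cP N P G r σ (τ j)}

/-- the cube in the contour -/
def wl_G (N : ℕ) (P : Set ℤ) (r σ : ℝ) {q : ℕ} (τ : Fin q → Pc N) (β : Fin q → Fin 2) (x : Fin q → ℝ) : Fin q → ℂ :=
  fun j => wl_g N P r σ (τ j) (β j) (x j)

/-- the coefficient -/
def wl_D (N : ℕ) (P G : Set ℤ) (r σ : ℝ) {q : ℕ} (τ : Fin q → Pc N) (β : Fin q → Fin 2) : ℂ :=
  ∏ j, wl_c N P G r σ (τ j) (β j)

theorem wl_G_cont (N : ℕ) (P : Set ℤ) (r σ : ℝ) {q : ℕ} (τ : Fin q → Pc N) (β : Fin q → Fin 2) :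
    Continuous (wl_G N P r σ τ β) := by
  rw [continuous_pi_iff]
  intro j
  exact (wl_g_cont N P r σ (τ j) (β j)).comp (continuous_apply j)

theorem wl_G_mem {N : ℕ} {P G : Set ℤ} {r σ : ℝ} (hN : 0 < N) (hr : 0 < r) (hr' : r < 1 / (4 * N)) (hσ : 0 < σ)
    {q : ℕ} {τ : Fin q → Pc N} {β : Fin q → Fin 2} (h : wl_D N P G r σ τ β ≠ 0) (x : Fin q → ℝ) :
    wl_G N P r σ τ β x ∈ wl_C N P G r σ τ := by
  intro j
  refine wl_mem hN hr hr' hσ _ _ ?_ _
  intro h0
  exact h (Finset.prod_eq_zero (Finset.mem_univ j) h0)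

/-- continuity of the cube integrals -/
theorem wl_term_cont {N : ℕ} {P G : Set ℤ} {r σ : ℝ} (hN : 0 < N) (hr : 0 < r) (hr' : r < 1 / (4 * N)) (hσ : 0 < σ)
    {X : Type*} [TopologicalSpace X] {q : ℕ} {τ : Fin q → Pc N} (β : Fin q → Fin 2) (S : Set X)
    (K : X → (Fin q → ℂ) → ℂ)
    (hK : ContinuousOn (fun x : X × (Fin q → ℂ) => K x.1 x.2) (S ×ˢ wl_C N P G r σ τ)) :
    ContinuousOn (fun x => wl_D N P G r σ τ β * ∫ y in Set.Icc (0 : Fin q → ℝ) 1, K x (wl_G N P r σ τ β y)) S := by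
  by_cases h : wl_D N P G r σ τ β = 0
  · simp only [h, zero_mul]
    exact continuousOn_const
  · apply ContinuousOn.mul continuousOn_const
    rw [continuousOn_iff_continuous_domRestrict]
    apply wl_cont_cube (fun (x : S) y => K x (wl_G N P r σ τ β y))
    have h1 : Continuous fun z : S × (Fin q → ℝ) => ((z.1 : X), wl_G N P r σ τ β z.2) :=
      (continuous_subtype_val.comp continuous_fst).prodMk ((wl_G_cont N P r σ τ β).comp continuous_snd)
    exact hK.comp_continuous h1 fun z => ⟨z.1.2, wl_G_mem hN hr hr' hσ h _⟩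

/-- representation of the iterated integrals -/
theorem wl_rep {N : ℕ} {P G : Set ℤ} {r σ : ℝ} (hN : 0 < N) (hr : 0 < r) (hr' : r < 1 / (4 * N)) (hσ : 0 < σ) :
    ∀ (q : ℕ) (τ : Fin q → Pc N) (F : (Fin q → ℂ) → ℂ), ContinuousOn F (wl_C N P G r σ τ) →
    itI N P G r σ q τ F = ∑ β : Fin q → Fin 2, wl_D N P G r σ τ β *
      ∫ x in Set.Icc (0 : Fin q → ℝ) 1, F (wl_G N P r σ τ β x) := by
  intro q
  induction q with
  | zero =>
    intro τ F _
    rw [Fintype.sum_unique]
    have h1 : ∀ (β : Fin 0 → Fin 2) (x : Fin 0 → ℝ), F (wl_G N P r σ τ β x) = F (fun i => i.elim0) := by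
      intro β x
      congr 1
      funext i
      exact i.elim0
    rw [setIntegral_congr_fun measurableSet_Icc fun x _ => h1 _ x]
    rw [setIntegral_const, wl_cube_vol, one_smul]
    simp [wl_D, itI]
  | succ q ih =>
    intro τ F hF
    set τ' : Fin q → Pc N := fun i => τ i.succ with hτ'
    have hcons : ∀ ζ ∈ cP N P G r σ (τ 0), ∀ v ∈ wl_C N P G r σ τ', (Fin.cons ζ v : Fin (q + 1) → ℂ) ∈ wl_C N P G r σ τ := by
      intro ζ hζ v hv i
      refine Fin.cases ?_ (fun j => ?_) i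
      · simpa using hζ
      · simpa using hv j
    have hcc : Continuous fun z : ℂ × (Fin q → ℂ) => (Fin.cons z.1 z.2 : Fin (q + 1) → ℂ) := by
      rw [continuous_pi_iff]
      intro i
      refine Fin.cases ?_ (fun j => ?_) i
      · simpa using continuous_fst
      · simp only [Fin.cons_succ]
        exact (continuous_apply j).comp continuous_snd
    have hK : ContinuousOn (fun z : ℂ × (Fin q → ℂ) => F (Fin.cons z.1 z.2))
        (cP N P G r σ (τ 0) ×ˢ wl_C N P G r σ τ') :=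
      hF.comp hcc.continuousOn fun z hz => hcons _ hz.1 _ hz.2
    have hin : ∀ ζ ∈ cP N P G r σ (τ 0), itI N P G r σ q τ' (fun v => F (Fin.cons ζ v))
        = ∑ β : Fin q → Fin 2, wl_D N P G r σ τ' β *
          ∫ y in Set.Icc (0 : Fin q → ℝ) 1, F (Fin.cons ζ (wl_G N P r σ τ' β y)) := by
      intro ζ hζ
      apply ih
      have : ContinuousOn (fun v : Fin q → ℂ => (ζ, v)) (wl_C N P G r σ τ') :=
        (continuous_const.prodMk continuous_id).continuousOn
      exact hK.comp this fun v hv => ⟨hζ, hv⟩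
    have hcont : ContinuousOn (fun ζ => itI N P G r σ q τ' (fun v => F (Fin.cons ζ v))) (cP N P G r σ (τ 0)) := by
      refine ContinuousOn.congr ?_ hin
      apply continuousOn_finsetSum
      intro β _
      exact wl_term_cont hN hr hr' hσ β (cP N P G r σ (τ 0)) (fun ζ v => F (Fin.cons ζ v)) hK
    have e0 : itI N P G r σ (q + 1) τ F = pI N P G r σ (τ 0) (fun ζ => itI N P G r σ q τ' (fun v => F (Fin.cons ζ v))) := rfl
    rw [e0, wl_rep1 hN hr hr' hσ _ _ hcont]
    rw [← (Fin.consEquiv (fun _ : Fin (q + 1) => Fin 2)).sum_comp, Fintype.sum_prod_type]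
    refine Finset.sum_congr rfl fun b _ => ?_
    have hD : ∀ β : Fin q → Fin 2, wl_D N P G r σ τ (Fin.consEquiv (fun _ : Fin (q + 1) => Fin 2) (b, β))
        = wl_c N P G r σ (τ 0) b * wl_D N P G r σ τ' β := by
      intro β
      unfold wl_D
      rw [Fin.prod_univ_succ]
      simp [Fin.consEquiv, hτ']
    simp_rw [hD]
    by_cases hb : wl_c N P G r σ (τ 0) b = 0
    · simp [hb]
    · have hmem := wl_mem hN hr hr' hσ (τ 0) b hb
      have e1 : ∫ x in Set.Icc (0 : ℝ) 1, itI N P G r σ q τ' (fun v => F (Fin.cons (wl_g N P r σ (τ 0) b x) v))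
          = ∫ x in Set.Icc (0 : ℝ) 1, ∑ β : Fin q → Fin 2, wl_D N P G r σ τ' β *
            ∫ y in Set.Icc (0 : Fin q → ℝ) 1, F (Fin.cons (wl_g N P r σ (τ 0) b x) (wl_G N P r σ τ' β y)) :=
        setIntegral_congr_fun measurableSet_Icc fun x _ => hin _ (hmem x)
      rw [e1, integral_finsetSum]
      · rw [Finset.mul_sum]
        refine Finset.sum_congr rfl fun β _ => ?_
        rw [integral_const_mul]
        by_cases hβ : wl_D N P G r σ τ' β = 0
        · simp [hβ]
        · have hne : wl_D N P G r σ τ (Fin.consEquiv (fun _ : Fin (q + 1) => Fin 2) (b, β)) ≠ 0 := by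
            rw [hD]
            exact mul_ne_zero hb hβ
          have hΦ : Continuous fun x => F (wl_G N P r σ τ (Fin.consEquiv (fun _ : Fin (q + 1) => Fin 2) (b, β)) x) :=
            hF.comp_continuous (wl_G_cont N P r σ τ _) fun x => wl_G_mem hN hr hr' hσ hne x
          have h5 := wl_cube_succ _ hΦ
          rw [← h5, mul_assoc]
          congr 2
          refine setIntegral_congr_fun measurableSet_Icc fun x _ => ?_
          refine setIntegral_congr_fun measurableSet_Icc fun y _ => ?_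
          show F _ = F _
          congr 1
          funext i
          refine Fin.cases ?_ (fun j => ?_) i
          · simp [wl_G, Fin.consEquiv]
          · simp [wl_G, Fin.consEquiv, hτ']
      · intro β _
        have h6 := wl_term_cont hN hr hr' hσ β (cP N P G r σ (τ 0)) (fun ζ v => F (Fin.cons ζ v)) hK
        exact (h6.comp_continuous (wl_g_cont N P r σ (τ 0) b) hmem).continuousOn.integrableOn_compact isCompact_Icc

/-! ### consequences -/

section Cons

variable {N : ℕ} {P G : Set ℤ} {r σ : ℝ} (hN : 0 < N) (hr : 0 < r) (hr' : r < 1 / (4 * N)) (hσ : 0 < σ)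
include hN hr hr' hσ

/-- the iterated integral depends only on the values on the contour -/
theorem wl_congr {q : ℕ} {τ : Fin q → Pc N} {F F' : (Fin q → ℂ) → ℂ}
    (hF : ContinuousOn F (wl_C N P G r σ τ)) (h : ∀ ζ ∈ wl_C N P G r σ τ, F ζ = F' ζ) :
    itI N P G r σ q τ F = itI N P G r σ q τ F' := by
  have hF' : ContinuousOn F' (wl_C N P G r σ τ) := hF.congr fun ζ hζ => (h ζ hζ).symm
  rw [wl_rep hN hr hr' hσ q τ F hF, wl_rep hN hr hr' hσ q τ F' hF']
  refine Finset.sum_congr rfl fun β _ => ?_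
  by_cases hβ : wl_D N P G r σ τ β = 0
  · rw [hβ, zero_mul, zero_mul]
  · congr 1
    exact setIntegral_congr_fun measurableSet_Icc fun x _ => h _ (wl_G_mem hN hr hr' hσ hβ x)

theorem wl_lin {q : ℕ} {τ : Fin q → Pc N} {F F' : (Fin q → ℂ) → ℂ} (c : ℂ)
    (hF : ContinuousOn F (wl_C N P G r σ τ)) (hF' : ContinuousOn F' (wl_C N P G r σ τ)) :
    itI N P G r σ q τ (fun ζ => c * F ζ + F' ζ) = c * itI N P G r σ q τ F + itI N P G r σ q τ F' := by
  have hs : ContinuousOn (fun ζ => c * F ζ + F' ζ) (wl_C N P G r σ τ) := (continuousOn_const.mul hF).add hF'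
  rw [wl_rep hN hr hr' hσ q τ F hF, wl_rep hN hr hr' hσ q τ F' hF',
    wl_rep hN hr hr' hσ q τ _ hs, Finset.mul_sum, ← Finset.sum_add_distrib]
  refine Finset.sum_congr rfl fun β _ => ?_
  by_cases hβ : wl_D N P G r σ τ β = 0
  · rw [hβ, zero_mul, zero_mul, zero_mul, mul_zero, add_zero]
  · have hi : ∀ F : (Fin q → ℂ) → ℂ, ContinuousOn F (wl_C N P G r σ τ) →
        IntegrableOn (fun x => F (wl_G N P r σ τ β x)) (Set.Icc (0 : Fin q → ℝ) 1) := fun F hF =>
      (hF.comp_continuous (wl_G_cont N P r σ τ β) fun x => wl_G_mem hN hr hr' hσ hβ x).continuousOn.integrableOn_compact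
        isCompact_Icc
    rw [integral_add ((hi F hF).const_mul c) (hi F' hF'), integral_const_mul]
    ring

theorem wl_add {q : ℕ} {τ : Fin q → Pc N} {F F' : (Fin q → ℂ) → ℂ}
    (hF : ContinuousOn F (wl_C N P G r σ τ)) (hF' : ContinuousOn F' (wl_C N P G r σ τ)) :
    itI N P G r σ q τ (fun ζ => F ζ + F' ζ) = itI N P G r σ q τ F + itI N P G r σ q τ F' := by
  have := wl_lin hN hr hr' hσ 1 hF hF'
  simpa using this

theorem wl_zero {q : ℕ} {τ : Fin q → Pc N} : itI N P G r σ q τ (fun _ => 0) = 0 := by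
  rw [wl_rep hN hr hr' hσ q τ _ continuousOn_const]
  simp

theorem wl_smul {q : ℕ} {τ : Fin q → Pc N} {F : (Fin q → ℂ) → ℂ} (c : ℂ)
    (hF : ContinuousOn F (wl_C N P G r σ τ)) :
    itI N P G r σ q τ (fun ζ => c * F ζ) = c * itI N P G r σ q τ F := by
  have := wl_lin hN hr hr' hσ c hF (F' := fun _ => 0) continuousOn_const
  rw [wl_zero hN hr hr' hσ, add_zero] at this
  rw [← this]
  simp

theorem wl_sub {q : ℕ} {τ : Fin q → Pc N} {F F' : (Fin q → ℂ) → ℂ}
    (hF : ContinuousOn F (wl_C N P G r σ τ)) (hF' : ContinuousOn F' (wl_C N P G r σ τ)) :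
    itI N P G r σ q τ (fun ζ => F ζ - F' ζ) = itI N P G r σ q τ F - itI N P G r σ q τ F' := by
  have := wl_lin hN hr hr' hσ (-1) hF' hF
  have e : (fun ζ => F ζ - F' ζ) = fun ζ => -1 * F' ζ + F ζ := by
    funext ζ
    ring
  rw [e, this]
  ring

theorem wl_sum {q : ℕ} {τ : Fin q → Pc N} {ι : Type*} (s : Finset ι) {F : ι → (Fin q → ℂ) → ℂ}
    (hF : ∀ i ∈ s, ContinuousOn (F i) (wl_C N P G r σ τ)) :
    itI N P G r σ q τ (fun ζ => ∑ i ∈ s, F i ζ) = ∑ i ∈ s, itI N P G r σ q τ (F i) := by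
  classical
  induction s using Finset.induction_on with
  | empty => simpa using wl_zero hN hr hr' hσ
  | insert a s ha ih =>
    have h1 := ih fun i hi => hF i (Finset.mem_insert_of_mem hi)
    rw [Finset.sum_insert ha, ← h1, ← wl_add hN hr hr' hσ (hF a (Finset.mem_insert_self a s))
      (continuousOn_finsetSum s fun i hi => hF i (Finset.mem_insert_of_mem hi))]
    congr 1
    funext ζ
    rw [Finset.sum_insert ha]

/-- continuous dependence on a parameter in an arbitrary set -/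
theorem wl_cont {X : Type*} [TopologicalSpace X] {q : ℕ} {τ : Fin q → Pc N} {S : Set X}
    {K : X → (Fin q → ℂ) → ℂ}
    (hK : ContinuousOn (fun x : X × (Fin q → ℂ) => K x.1 x.2) (S ×ˢ wl_C N P G r σ τ)) :
    ContinuousOn (fun x => itI N P G r σ q τ (K x)) S := by
  have h1 : ∀ x ∈ S, itI N P G r σ q τ (K x) = ∑ β : Fin q → Fin 2, wl_D N P G r σ τ β *
      ∫ y in Set.Icc (0 : Fin q → ℝ) 1, K x (wl_G N P r σ τ β y) := by
    intro x hx
    apply wl_rep hN hr hr' hσ
    exact hK.comp (continuous_const.prodMk continuous_id).continuousOn fun v hv => ⟨hx, hv⟩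
  refine ContinuousOn.congr ?_ h1
  apply continuousOn_finsetSum
  intro β _
  exact wl_term_cont hN hr hr' hσ β S K hK

/-- bound -/
theorem wl_bound (q : ℕ) (τ : Fin q → Pc N) : ∃ L : ℝ, 0 ≤ L ∧ ∀ F : (Fin q → ℂ) → ℂ,
    ContinuousOn F (wl_C N P G r σ τ) → ∀ B : ℝ, 0 ≤ B → (∀ ζ ∈ wl_C N P G r σ τ, ‖F ζ‖ ≤ B) →
      ‖itI N P G r σ q τ F‖ ≤ L * B := by
  refine ⟨∑ β : Fin q → Fin 2, ‖wl_D N P G r σ τ β‖, Finset.sum_nonneg fun _ _ => norm_nonneg _, ?_⟩
  intro F hF B hB0 hB
  rw [wl_rep hN hr hr' hσ q τ F hF, Finset.sum_mul]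
  refine (norm_sum_le _ _).trans (Finset.sum_le_sum fun β _ => ?_)
  rw [norm_mul]
  by_cases hβ : wl_D N P G r σ τ β = 0
  · rw [hβ, norm_zero, zero_mul, zero_mul]
  · apply mul_le_mul_of_nonneg_left _ (norm_nonneg _)
    have h2 := norm_setIntegral_le_of_norm_le_const (μ := volume) (s := Set.Icc (0 : Fin q → ℝ) 1)
      (f := fun y => F (wl_G N P r σ τ β y)) (C := B) (by
        rw [Real.volume_Icc_pi]
        simp) (fun y _ => hB _ (wl_G_mem hN hr hr' hσ hβ y))
    rw [wl_cube_vol, mul_one] at h2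
    exact h2

/-- order of the variables -/
theorem wl_perm {q : ℕ} (τ : Fin q → Pc N) (F : (Fin q → ℂ) → ℂ) (e : Equiv.Perm (Fin q))
    (hF : ContinuousOn F (wl_C N P G r σ τ)) :
    itI N P G r σ q (fun i => τ (e i)) (fun ζ => F (fun i => ζ (e.symm i))) = itI N P G r σ q τ F := by
  have hc : Continuous fun ζ : Fin q → ℂ => fun i => ζ (e.symm i) :=
    continuous_pi fun i => continuous_apply (e.symm i)
  have hm : ∀ ζ ∈ wl_C N P G r σ (fun i => τ (e i)), (fun i => ζ (e.symm i)) ∈ wl_C N P G r σ τ := by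
    intro ζ hζ i
    have := hζ (e.symm i)
    simp only [Equiv.apply_symm_apply] at this
    exact this
  have hs : ContinuousOn (fun ζ : Fin q → ℂ => F (fun i => ζ (e.symm i))) (wl_C N P G r σ (fun i => τ (e i))) :=
    hF.comp hc.continuousOn hm
  rw [wl_rep hN hr hr' hσ q _ _ hs, wl_rep hN hr hr' hσ q τ F hF]
  rw [← (Equiv.arrowCongr e (Equiv.refl (Fin 2))).symm.sum_comp]
  refine Finset.sum_congr rfl fun β _ => ?_
  have e1 : wl_D N P G r σ (fun i => τ (e i)) ((Equiv.arrowCongr e (Equiv.refl (Fin 2))).symm β)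
      = wl_D N P G r σ τ β := by
    exact Equiv.prod_comp e fun j => wl_c N P G r σ (τ j) (β j)
  rw [e1]
  congr 1
  have hmp := volume_measurePreserving_piCongrLeft (fun _ : Fin q => ℝ) e
  have h3 := hmp.setIntegral_preimage_emb (MeasurableEquiv.measurableEmbedding _)
    (fun x : Fin q → ℝ => F (wl_G N P r σ τ β x)) (Set.Icc (0 : Fin q → ℝ) 1)
  rw [← h3]
  have hap : ∀ (x : Fin q → ℝ) (i : Fin q), (MeasurableEquiv.piCongrLeft (fun _ : Fin q => ℝ) e) x i = x (e.symm i) := by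
    intro x i
    obtain ⟨j, rfl⟩ := e.surjective i
    rw [Equiv.symm_apply_apply]
    exact Equiv.piCongrLeft_apply_apply (P := fun _ : Fin q => ℝ) e x j
  have h4 : (MeasurableEquiv.piCongrLeft (fun _ : Fin q => ℝ) e) ⁻¹' (Set.Icc (0 : Fin q → ℝ) 1) = Set.Icc 0 1 := by
    ext x
    simp only [Set.mem_preimage, Set.mem_Icc, Pi.le_def, hap, Pi.zero_apply, Pi.one_apply]
    constructor
    · rintro ⟨a, b⟩
      refine ⟨fun i => ?_, fun i => ?_⟩
      · have := a (e i)
        rwa [Equiv.symm_apply_apply] at this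
      · have := b (e i)
        rwa [Equiv.symm_apply_apply] at this
    · rintro ⟨a, b⟩
      exact ⟨fun i => a _, fun i => b _⟩
  rw [h4]
  refine setIntegral_congr_fun measurableSet_Icc fun x _ => ?_
  show F _ = F _
  congr 1
  funext i
  show wl_g N P r σ (τ (e (e.symm i))) (β (e (e.symm i))) (x (e.symm i))
    = wl_g N P r σ (τ i) (β i) ((MeasurableEquiv.piCongrLeft (fun _ : Fin q => ℝ) e) x i)
  rw [Equiv.apply_symm_apply, hap]

end Cons

/-- W4b -/
theorem st_W4b : ST_W4b := fun _ _ _ _ _ _ hN hr hr' hσ τ F e hF => wl_perm hN hr hr' hσ τ F e hF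

end

end Pool.Agent.Helper67.DO
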