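import Pool.Agent.Helper53.DO.ItI
import Pool.Agent.Helper30.DO.W7

/-!
# Kernels of the window operators: bounds, joint differentiability, periodicity, alternation
-/

namespace Pool.Agent.Helper67.DO

open scoped BigOperators Real
open Filter Topology

noncomputable section

/-! ### one factor -/

theorem wk_diff_kap {u : ℂ} (h : ∀ t : ℤ, u ≠ t) : DifferentiableAt ℂ kap u := by
  have e2 : kap = fun u : ℂ => Complex.cos (π * u) / Complex.sin (π * u) / (2 * Complex.I) := by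
    funext u
    unfold kap
    rw [Complex.cot_eq_cos_div_sin]
  rw [e2]
  refine w7_div ?_ (differentiableAt_const _) (by simp)
  refine w7_div ?_ ?_ (w7_sin h)
  · fun_prop
  · fun_prop

theorem wk_kap_per (u : ℂ) : kap (u + 1) = kap u := by
  unfold kap
  rw [Complex.cot_eq_cos_div_sin, Complex.cot_eq_cos_div_sin, mul_add, mul_one, Complex.cos_add_pi,
    Complex.sin_add_pi, neg_div_neg_eq]

theorem wk_kap_int (u : ℂ) (t : ℤ) : kap (u + t) = kap u := by
  induction t using Int.induction_on with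
  | zero => simp
  | succ n ih =>
    push_cast at ih ⊢
    rw [← add_assoc, wk_kap_per, ih]
  | pred n ih =>
    push_cast at ih ⊢
    have h := wk_kap_per (u + (-(n : ℂ) - 1))
    rw [← h]
    have e : u + (-(n : ℂ) - 1) + 1 = u + -(n : ℂ) := by ring
    rw [e, ih]

/-- the product `sn * kap` -/
def wk_sc (u : ℂ) : ℂ := Complex.sin (π * u) * Complex.cos (π * u) / (2 * Complex.I)

theorem wk_sc_per (u : ℂ) : wk_sc (u + 1) = wk_sc u := by
  unfold wk_sc
  rw [mul_add, mul_one, Complex.cos_add_pi, Complex.sin_add_pi, neg_mul_neg]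

theorem wk_sc_int (u : ℂ) (t : ℤ) : wk_sc (u + t) = wk_sc u := by
  induction t using Int.induction_on with
  | zero => simp
  | succ n ih =>
    push_cast at ih ⊢
    rw [← add_assoc, wk_sc_per, ih]
  | pred n ih =>
    push_cast at ih ⊢
    have h := wk_sc_per (u + (-(n : ℂ) - 1))
    rw [← h]
    have e : u + (-(n : ℂ) - 1) + 1 = u + -(n : ℂ) := by ring
    rw [e, ih]

theorem wk_sc_diff : Differentiable ℂ wk_sc := by
  unfold wk_sc
  fun_prop

theorem wk_sn_per (u : ℂ) : sn (u + 1) = sn u := by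
  unfold sn
  rw [mul_add, mul_one, Complex.sin_add_pi, neg_sq]

/-- bounds for both factors -/
theorem wk_bound1 (H a b : ℝ) (ha : 0 < a) (hb : 0 < b) : ∃ C : ℝ, 1 ≤ C ∧ ∀ u : ℂ, |u.im| ≤ H →
    ‖wk_sc u‖ ≤ C ∧ ((a ≤ |u.im| ∨ ∀ t : ℤ, b ≤ |u.re - t|) → ‖kap u‖ ≤ C) := by
  let K1 : Set ℂ := {u | |u.im| ≤ H ∧ 0 ≤ u.re ∧ u.re ≤ 1}
  let K2 : Set ℂ := {u | (a ≤ |u.im| ∨ (b ≤ u.re ∧ u.re ≤ 1 - b))}
  have c1 : IsClosed K1 := by
    have : K1 = {u | |u.im| ≤ H} ∩ ({u | 0 ≤ u.re} ∩ {u | u.re ≤ 1}) := rfl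
    rw [this]
    exact (isClosed_le (continuous_abs.comp Complex.continuous_im) continuous_const).inter
      ((isClosed_le continuous_const Complex.continuous_re).inter (isClosed_le Complex.continuous_re continuous_const))
  have c2 : IsClosed K2 := by
    have : K2 = {u | a ≤ |u.im|} ∪ ({u | b ≤ u.re} ∩ {u | u.re ≤ 1 - b}) := rfl
    rw [this]
    exact (isClosed_le continuous_const (continuous_abs.comp Complex.continuous_im)).union
      ((isClosed_le continuous_const Complex.continuous_re).inter (isClosed_le Complex.continuous_re continuous_const))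
  have k1 : IsCompact K1 := by
    refine Metric.isCompact_of_isClosed_isBounded c1 ?_
    refine (Metric.isBounded_iff_subset_closedBall 0).2 ⟨1 + H, fun u hu => ?_⟩
    rw [Metric.mem_closedBall, dist_zero_right]
    refine (Complex.norm_le_abs_re_add_abs_im u).trans (add_le_add ?_ hu.1)
    rw [abs_of_nonneg hu.2.1]
    exact hu.2.2
  have k2 : IsCompact (K1 ∩ K2) := k1.inter_right c2
  have hK2 : ∀ u ∈ K2, ∀ t : ℤ, u ≠ t := by
    rintro u (h | ⟨h1, h2⟩) t rfl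
    · simp only [Complex.intCast_im, abs_zero] at h
      linarith
    · simp only [Complex.intCast_re] at h1 h2
      have h3 : (0 : ℝ) < ((t : ℤ) : ℝ) := by linarith
      have h4 : ((t : ℤ) : ℝ) < 1 := by linarith
      have h5 : 0 < t := by exact_mod_cast h3
      have h6 : t < 1 := by exact_mod_cast h4
      omega
  obtain ⟨C1, hC1⟩ := k1.exists_bound_of_continuousOn wk_sc_diff.continuous.continuousOn
  obtain ⟨C2, hC2⟩ := k2.exists_bound_of_continuousOn (f := kap)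
    (fun u hu => (wk_diff_kap (hK2 u hu.2)).continuousAt.continuousWithinAt)
  refine ⟨max 1 (max C1 C2), le_max_left _ _, fun u hu => ?_⟩
  have hfl0 := Int.floor_le u.re
  have hfl1 := Int.lt_floor_add_one u.re
  set u' : ℂ := u + ((-⌊u.re⌋ : ℤ) : ℂ) with hu'
  have hre : u'.re = u.re - ⌊u.re⌋ := by
    simp [hu', sub_eq_add_neg]
  have him : u'.im = u.im := by
    simp [hu']
  have hm : u' ∈ K1 := by
    refine ⟨by rw [him]; exact hu, by rw [hre]; linarith, by rw [hre]; linarith⟩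
  constructor
  · rw [← wk_sc_int u (-⌊u.re⌋)]
    exact (hC1 _ hm).trans ((le_max_left _ _).trans (le_max_right _ _))
  · intro h
    rw [← wk_kap_int u (-⌊u.re⌋)]
    refine (hC2 u' ⟨hm, ?_⟩).trans ((le_max_right _ _).trans (le_max_right _ _))
    rcases h with h | h
    · exact Or.inl (by rw [him]; exact h)
    · right
      have h1 := h ⌊u.re⌋
      have h2 := h (⌊u.re⌋ + 1)
      push_cast at h2
      rw [abs_of_nonneg (by linarith)] at h1
      rw [abs_of_neg (by linarith)] at h2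
      rw [hre]
      constructor <;> linarith

/-! ### the product -/

open Classical in
/-- `P_k ∏ kap` with cancelled poles -/
def wk_Q {N q : ℕ} (k : Fin N) (τ : Fin q → Pc N) (z ζ : Fin q → ℂ) : ℂ :=
  ∏ j, if τ j = Sum.inr k then wk_sc (ζ j - z j) else kap (ζ j - z j)

theorem wk_Q_eq {N q : ℕ} (k : Fin N) (τ : Fin q → Pc N) (z ζ : Fin q → ℂ) :
    Pw k τ z ζ * ∏ j, kap (ζ j - z j) = wk_Q k τ z ζ := by
  classical
  unfold Pw wk_Q
  rw [← Finset.prod_mul_distrib]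
  refine Finset.prod_congr rfl fun j _ => ?_
  split_ifs with h
  · exact w7_snkap _ _
  · rw [one_mul]

theorem wk_Q_diff {N q : ℕ} (k : Fin N) (τ : Fin q → Pc N) (x : (Fin q → ℂ) × (Fin q → ℂ))
    (hj : ∀ j, τ j ≠ Sum.inr k → ∀ t : ℤ, x.2 j - x.1 j ≠ t) :
    DifferentiableAt ℂ (fun x : (Fin q → ℂ) × (Fin q → ℂ) => wk_Q k τ x.1 x.2) x := by
  unfold wk_Q
  apply w7_prod
  intro j _
  have h1 : DifferentiableAt ℂ (fun x : (Fin q → ℂ) × (Fin q → ℂ) => x.2 j - x.1 j) x := by fun_prop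
  split_ifs with h
  · exact DifferentiableAt.comp x (wk_sc_diff _) h1
  · exact DifferentiableAt.comp x (wk_diff_kap (hj j h)) h1

theorem wk_Pw_diff {N q : ℕ} (l : Fin N) (τ : Fin q → Pc N) :
    Differentiable ℂ (fun x : (Fin q → ℂ) × (Fin q → ℂ) => Pw l τ x.1 x.2) := by
  intro x
  unfold Pw
  apply w7_prod
  intro j _
  split_ifs with h
  · unfold sn
    fun_prop
  · exact differentiableAt_const _

theorem wk_Sw_diff {N q : ℕ} (M : ℕ) (τ : Fin q → Pc N) :
    Differentiable ℂ (fun x : (Fin q → ℂ) × (Fin q → ℂ) => Sw M τ x.1 x.2) := by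
  intro x
  unfold Sw
  apply DifferentiableAt.fun_sum
  intro l _
  split_ifs with h
  · exact wk_Pw_diff l τ x
  · exact differentiableAt_const _

/-! ### periodicity -/

theorem wk_per {N q : ℕ} {M : ℕ} (k : Fin N) (τ : Fin q → Pc N) (z ζ : Fin q → ℂ) (i : Fin q) :
    (∀ l : Fin N, Pw l τ (Function.update z i (z i + 1)) ζ = Pw l τ z ζ) ∧
    Sw M τ (Function.update z i (z i + 1)) ζ = Sw M τ z ζ ∧
    wk_Q k τ (Function.update z i (z i + 1)) ζ = wk_Q k τ z ζ := by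
  classical
  have h1 : ∀ l : Fin N, Pw l τ (Function.update z i (z i + 1)) ζ = Pw l τ z ζ := by
    intro l
    unfold Pw
    refine Finset.prod_congr rfl fun j _ => ?_
    by_cases hj : j = i
    · rw [hj, Function.update_self]
      have e : z i + 1 - ζ i = z i - ζ i + 1 := by ring
      rw [e, wk_sn_per]
    · rw [Function.update_of_ne hj]
  refine ⟨h1, ?_, ?_⟩
  · unfold Sw
    refine Finset.sum_congr rfl fun l _ => ?_
    rw [h1]
  · unfold wk_Q
    refine Finset.prod_congr rfl fun j _ => ?_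
    by_cases hj : j = i
    · rw [hj, Function.update_self]
      have e1 : wk_sc (ζ i - (z i + 1)) = wk_sc (ζ i - z i) := by
        rw [← wk_sc_per]
        congr 1
        ring
      have e2 : kap (ζ i - (z i + 1)) = kap (ζ i - z i) := by
        rw [← wk_kap_per]
        congr 1
        ring
      rw [e1, e2]
    · rw [Function.update_of_ne hj]

/-! ### equivariance and alternation -/

theorem wk_equi {N q : ℕ} {M : ℕ} (k : Fin N) (τ : Fin q → Pc N) (z ζ : Fin q → ℂ) (e : Equiv.Perm (Fin q)) :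
    (∀ l : Fin N, Pw l (fun i => τ (e i)) (fun i => z (e i)) (fun i => ζ (e i)) = Pw l τ z ζ) ∧
    Sw M (fun i => τ (e i)) (fun i => z (e i)) (fun i => ζ (e i)) = Sw M τ z ζ ∧
    wk_Q k (fun i => τ (e i)) (fun i => z (e i)) (fun i => ζ (e i)) = wk_Q k τ z ζ := by
  classical
  have h1 : ∀ l : Fin N, Pw l (fun i => τ (e i)) (fun i => z (e i)) (fun i => ζ (e i)) = Pw l τ z ζ := by
    intro l
    unfold Pw
    exact Equiv.prod_comp e fun j => if τ j = Sum.inr l then sn (z j - ζ j) else 1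
  refine ⟨h1, ?_, ?_⟩
  · unfold Sw
    refine Finset.sum_congr rfl fun l _ => ?_
    rw [h1]
  · unfold wk_Q
    exact Equiv.prod_comp e fun j => if τ j = Sum.inr k then wk_sc (ζ j - z j) else kap (ζ j - z j)

/-- alternation of sums over tuples of pieces with an equivariant kernel -/
theorem wk_alt {N : ℕ} {P G : Set ℤ} {r σ : ℝ} (hN : 0 < N) (hr : 0 < r) (hr' : r < 1 / (4 * N)) (hσ : 0 < σ)
    {q : ℕ} (F : (Fin q → ℂ) → ℂ) (R : (Fin q → Pc N) → (Fin q → ℂ) → (Fin q → ℂ) → ℂ) (e : Equiv.Perm (Fin q))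
    (hR : ∀ τ z ζ, R (fun i => τ (e i)) (fun i => z (e i)) (fun i => ζ (e i)) = R τ z ζ)
    (hF : ∀ τ : Fin q → Pc N, ∀ ζ ∈ wl_C N P G r σ τ, F (fun i => ζ (e i)) = ((Equiv.Perm.sign e : ℤ) : ℂ) * F ζ)
    (z : Fin q → ℂ) (hc : ∀ τ, ContinuousOn (fun ζ => F ζ * R τ z ζ) (wl_C N P G r σ τ)) :
    ∑ τ : Fin q → Pc N, itI N P G r σ q τ (fun ζ => F ζ * R τ (fun i => z (e i)) ζ)
      = ((Equiv.Perm.sign e : ℤ) : ℂ) * ∑ τ : Fin q → Pc N, itI N P G r σ q τ (fun ζ => F ζ * R τ z ζ) := by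
  rw [← (Equiv.arrowCongr e (Equiv.refl (Pc N))).symm.sum_comp, Finset.mul_sum]
  refine Finset.sum_congr rfl fun τ _ => ?_
  have e0 : (Equiv.arrowCongr e (Equiv.refl (Pc N))).symm τ = fun i => τ (e i) := rfl
  rw [e0]
  let H : (Fin q → ℂ) → ℂ := fun ζ => F (fun i => ζ (e i)) * R τ z ζ
  have hH : ∀ ζ ∈ wl_C N P G r σ τ, ((Equiv.Perm.sign e : ℤ) : ℂ) * (F ζ * R τ z ζ) = H ζ := by
    intro ζ hζ
    show _ = F (fun i => ζ (e i)) * R τ z ζ
    rw [hF τ ζ hζ]
    ring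
  have hHc : ContinuousOn H (wl_C N P G r σ τ) :=
    (continuousOn_const.mul (hc τ)).congr fun ζ hζ => (hH ζ hζ).symm
  have e1 : (fun ζ => F ζ * R (fun i => τ (e i)) (fun i => z (e i)) ζ) = fun ζ => H (fun i => ζ (e.symm i)) := by
    funext ζ
    show F ζ * R (fun i => τ (e i)) (fun i => z (e i)) ζ
      = F (fun i => ζ (e.symm (e i))) * R τ z (fun i => ζ (e.symm i))
    have e2 : (fun i => ζ (e.symm (e i))) = ζ := by
      funext i
      rw [Equiv.symm_apply_apply]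
    rw [e2, ← hR τ z (fun i => ζ (e.symm i))]
    simp only [e2]
  rw [e1, wl_perm hN hr hr' hσ τ H e hHc, ← wl_smul hN hr hr' hσ _ (hc τ)]
  exact (wl_congr hN hr hr' hσ (continuousOn_const.mul (hc τ)) hH).symm

/-! ### separation on the contour -/

theorem wk_sep {N : ℕ} (hN : 0 < N) {P Pz G : Set ℤ} (hPz : ∀ k, k ∈ Pz ↔ k + N ∈ Pz) {w h r σ : ℝ}
    (hr : 0 < r) (p : Pc N)
    (hp : ∀ l : Fin N, p = Sum.inr l → ((l : ℕ) : ℤ) ∈ P → ((l : ℕ) : ℤ) ∈ Pz)
    {z ζ : ℂ} (hζ : ζ ∈ cP N P G r σ p) (hz : z ∈ US N Pz G w h) :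
    σ - h ≤ |(ζ - z).im| ∨ ∀ t : ℤ, w - r ≤ |(ζ - z).re - t| := by
  have him : |ζ.im| = σ → σ - h ≤ |(ζ - z).im| := by
    intro h1
    have h2 := abs_sub_abs_le_abs_sub ζ.im z.im
    rw [h1] at h2
    have h3 : (ζ - z).im = ζ.im - z.im := by simp
    rw [h3]
    linarith [hz.1]
  have key : ∀ l : Fin N, ((l : ℕ) : ℤ) ∈ Pz → |ζ.re - (((l : ℕ) : ℤ) : ℝ) / N| ≤ r →
      ∀ t : ℤ, w - r ≤ |(ζ - z).re - t| := by
    intro l hl hlr t
    have h1 := w7_sep hN hPz hl hlr hz (-t)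
    have e : |(z - ζ).re - ((-t : ℤ) : ℝ)| = |(ζ - z).re - t| := by
      rw [← abs_neg]
      congr 1
      simp only [Complex.sub_re]
      push_cast
      ring
    rw [e] at h1
    exact h1
  rcases p with l | l
  · obtain ⟨_, h2, _⟩ := hζ
    exact Or.inl (him h2)
  · rcases hζ with (⟨_, h2, _⟩ | ⟨h2, _, _, h4⟩) | ⟨h2, _, _, h4⟩
    · exact Or.inl (him h2)
    · refine Or.inr (key l (hp l rfl h2) ?_)
      rw [h4]
      push_cast
      rw [sub_sub_cancel_left, abs_neg, abs_of_pos hr]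
    · refine Or.inr (key l (hp l rfl h2) ?_)
      rw [h4]
      push_cast
      rw [add_sub_cancel_left, abs_of_pos hr]

theorem wk_im {N : ℕ} {P G : Set ℤ} {r σ : ℝ} (p : Pc N) {ζ : ℂ} (hζ : ζ ∈ cP N P G r σ p) : |ζ.im| ≤ σ := by
  rcases p with l | l
  · exact hζ.2.1.le
  · rcases hζ with (⟨_, h2, _⟩ | ⟨_, _, h3, _⟩) | ⟨_, _, h3, _⟩
    · exact h2.le
    · exact h3
    · exact h3

/-- bound for `P_k ∏ kap` -/
theorem wk_Q_bound {N : ℕ} (hN : 0 < N) (q : ℕ) {w h r σ : ℝ} (hr : 0 < r) (hrw : r < w) (hσ : h < σ) :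
    ∃ C : ℝ, 0 ≤ C ∧ ∀ (P Pz G : Set ℤ), (∀ k, k ∈ Pz ↔ k + N ∈ Pz) → ∀ (k : Fin N),
      (∀ l : Fin N, l ≠ k → ((l : ℕ) : ℤ) ∈ P → ((l : ℕ) : ℤ) ∈ Pz) →
      ∀ (τ : Fin q → Pc N), ∀ z ∈ PU q (US N Pz G w h), ∀ ζ ∈ wl_C N P G r σ τ,
        ‖wk_Q k τ z ζ‖ ≤ C := by
  classical
  obtain ⟨C, hC1, hC⟩ := wk_bound1 (σ + h) (σ - h) (w - r) (by linarith) (by linarith)
  refine ⟨C ^ q, by positivity, ?_⟩
  intro P Pz G hPz k hPk τ z hz ζ hζ
  unfold wk_Q
  rw [norm_prod]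
  calc _ ≤ ∏ _j : Fin q, C := by
        apply Finset.prod_le_prod
        · intro j _
          exact norm_nonneg _
        · intro j _
          have him : |(ζ j - z j).im| ≤ σ + h := by
            have h1 := wk_im _ (hζ j)
            have h2 := (hz j).1
            rw [Complex.sub_im]
            exact (abs_sub _ _).trans (by linarith)
          obtain ⟨h1, h2⟩ := hC _ him
          split_ifs with hj
          · exact h1
          · apply h2
            refine wk_sep hN hPz hr (τ j) ?_ (hζ j) (hz j)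
            intro l hl hlP
            refine hPk l ?_ hlP
            rintro rfl
            exact hj hl
    _ = C ^ q := by simp

/-- off the integers -/
theorem wk_off {N : ℕ} (hN : 0 < N) {P Pz G : Set ℤ} (hPz : ∀ k, k ∈ Pz ↔ k + N ∈ Pz) {w h r σ : ℝ}
    (hr : 0 < r) (hrw : r < w) (hσ : h < σ) (k : Fin N)
    (hPk : ∀ l : Fin N, l ≠ k → ((l : ℕ) : ℤ) ∈ P → ((l : ℕ) : ℤ) ∈ Pz) {q : ℕ} {τ : Fin q → Pc N}
    {z ζ : Fin q → ℂ} (hz : z ∈ PU q (US N Pz G w h)) (hζ : ζ ∈ wl_C N P G r σ τ) :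
    ∀ j, τ j ≠ Sum.inr k → ∀ t : ℤ, ζ j - z j ≠ t := by
  intro j hj t
  refine w7_avoid hN hPz hr hrw hσ (τ j) ?_ (hζ j) (hz j) t
  intro l hl hlP
  refine hPk l ?_ hlP
  rintro rfl
  exact hj hl

/-- joint continuity of `F P_k ∏ kap` -/
theorem wk_Q_cont {N : ℕ} (hN : 0 < N) {P Pz G : Set ℤ} (hPz : ∀ k, k ∈ Pz ↔ k + N ∈ Pz) {w h r σ : ℝ}
    (hr : 0 < r) (hrw : r < w) (hσ : h < σ) (k : Fin N)
    (hPk : ∀ l : Fin N, l ≠ k → ((l : ℕ) : ℤ) ∈ P → ((l : ℕ) : ℤ) ∈ Pz) {q : ℕ} (τ : Fin q → Pc N) :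
    ContinuousOn (fun x : (Fin q → ℂ) × (Fin q → ℂ) => wk_Q k τ x.1 x.2)
      (PU q (US N Pz G w h) ×ˢ wl_C N P G r σ τ) := by
  intro x hx
  exact (wk_Q_diff k τ x (wk_off hN hPz hr hrw hσ k hPk hx.1 hx.2)).continuousAt.continuousWithinAt

/-- the classes of two grid indices in `[0,N)` -/
theorem wk_pcl {N : ℕ} (l k : Fin N) (h : ((l : ℕ) : ℤ) ∈ pcl N {((k : ℕ) : ℤ)}) : l = k := by
  obtain ⟨t, ht⟩ := h
  have h1 : ((l : ℕ) : ℤ) - t * N = ((k : ℕ) : ℤ) := ht
  have h2 := l.2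
  have h3 := k.2
  have ht0 : t = 0 := by
    by_contra hne
    have h4 : (1 : ℤ) ≤ |t| := Int.one_le_abs hne
    have h5 : |t * (N : ℤ)| < N := by
      have e : t * (N : ℤ) = ((l : ℕ) : ℤ) - ((k : ℕ) : ℤ) := by linarith
      rw [e, abs_lt]
      constructor <;> omega
    rw [abs_mul, abs_of_nonneg (Int.natCast_nonneg N)] at h5
    have h6 : (1 : ℤ) * N ≤ |t| * N := mul_le_mul_of_nonneg_right h4 (Int.natCast_nonneg N)
    linarith
  rw [ht0] at h1
  apply Fin.ext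
  omega

end

end Pool.Agent.Helper67.DO
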