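import Pool.Agent.Helper53.DO.Ker

/-!
# W8: approximation of the window operator by functions holomorphic on the larger domain
-/

namespace Pool.Agent.Helper67.DO

open scoped BigOperators Real
open Filter Topology

noncomputable section

/-- partial sums of the Neumann series of `1/s` -/
def w8_A (c0 : ℂ) (T : ℕ) (s : ℂ) : ℂ := c0 * ∑ t ∈ Finset.range T, (1 - c0 * s) ^ t

theorem w8_A_diff (c0 : ℂ) (T : ℕ) : Differentiable ℂ (w8_A c0 T) := by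
  unfold w8_A
  fun_prop

theorem w8_A_bound (c0 : ℂ) (T : ℕ) (s : ℂ) (C : ℝ) (hs : ‖s‖ ≤ C) :
    ‖w8_A c0 T s‖ ≤ ‖c0‖ * ∑ t ∈ Finset.range T, (1 + ‖c0‖ * C) ^ t := by
  unfold w8_A
  rw [norm_mul]
  apply mul_le_mul_of_nonneg_left _ (norm_nonneg _)
  refine (norm_sum_le _ _).trans (Finset.sum_le_sum fun t _ => ?_)
  rw [norm_pow]
  refine pow_le_pow_left₀ (norm_nonneg _) ?_ t
  refine (norm_sub_le _ _).trans ?_
  rw [norm_one, norm_mul]
  have := mul_le_mul_of_nonneg_left hs (norm_nonneg c0)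
  linarith

theorem w8_A_sub (c0 : ℂ) (T : ℕ) (s : ℂ) (hs : s ≠ 0) : w8_A c0 T s - s⁻¹ = -((1 - c0 * s) ^ T * s⁻¹) := by
  have h := geom_sum_mul_neg (1 - c0 * s) T
  have e : 1 - (1 - c0 * s) = c0 * s := by ring
  rw [e] at h
  have h2 : w8_A c0 T s * s = 1 - (1 - c0 * s) ^ T := by
    unfold w8_A
    rw [← h]
    ring
  have h3 : w8_A c0 T s = (1 - (1 - c0 * s) ^ T) * s⁻¹ := by
    rw [← h2, mul_assoc, mul_inv_cancel₀ hs, mul_one]
  rw [h3]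
  ring

/-- contraction -/
theorem w8_theta {ρ C : ℝ} (hρ : 0 < ρ) (hC : 0 < C) (s : ℂ) (h1 : ρ ≤ s.re) (h2 : ‖s‖ ≤ C) :
    ‖1 - ((ρ / C ^ 2 : ℝ) : ℂ) * s‖ ≤ Real.sqrt (1 - ρ ^ 2 / C ^ 2) := by
  apply Real.le_sqrt_of_sq_le
  set c : ℝ := ρ / C ^ 2 with hc
  have hc0 : 0 < c := by positivity
  have hn : ‖s‖ ^ 2 = s.re ^ 2 + s.im ^ 2 := by
    rw [← Complex.normSq_eq_norm_sq, Complex.normSq_apply]
    ring
  have e : ‖1 - (c : ℂ) * s‖ ^ 2 = 1 - 2 * c * s.re + c ^ 2 * ‖s‖ ^ 2 := by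
    rw [hn, ← Complex.normSq_eq_norm_sq, Complex.normSq_apply]
    simp only [Complex.sub_re, Complex.one_re, Complex.mul_re, Complex.ofReal_re, Complex.ofReal_im, zero_mul,
      sub_zero, Complex.sub_im, Complex.one_im, Complex.mul_im, add_zero]
    ring
  rw [e]
  have h3 : ‖s‖ ^ 2 ≤ C ^ 2 := pow_le_pow_left₀ (norm_nonneg _) h2 2
  have h4 : c ^ 2 * ‖s‖ ^ 2 ≤ c ^ 2 * C ^ 2 := mul_le_mul_of_nonneg_left h3 (by positivity)
  have h5 : 2 * c * ρ ≤ 2 * c * s.re := mul_le_mul_of_nonneg_left h1 (by positivity)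
  have h6 : c ^ 2 * C ^ 2 = ρ ^ 2 / C ^ 2 := by
    rw [hc]
    field_simp
  have h7 : 2 * c * ρ = 2 * (ρ ^ 2 / C ^ 2) := by
    rw [hc]
    ring
  linarith

theorem w8_sn_bound (H : ℝ) : ∃ C : ℝ, 1 ≤ C ∧ ∀ u : ℂ, |u.im| ≤ H → ‖sn u‖ ≤ C := by
  let K1 : Set ℂ := {u | |u.im| ≤ H ∧ 0 ≤ u.re ∧ u.re ≤ 1}
  have c1 : IsClosed K1 := by
    have : K1 = {u | |u.im| ≤ H} ∩ ({u | 0 ≤ u.re} ∩ {u | u.re ≤ 1}) := rfl
    rw [this]
    exact (isClosed_le (continuous_abs.comp Complex.continuous_im) continuous_const).inter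
      ((isClosed_le continuous_const Complex.continuous_re).inter (isClosed_le Complex.continuous_re continuous_const))
  have k1 : IsCompact K1 := by
    refine Metric.isCompact_of_isClosed_isBounded c1 ?_
    refine (Metric.isBounded_iff_subset_closedBall 0).2 ⟨1 + H, fun u hu => ?_⟩
    rw [Metric.mem_closedBall, dist_zero_right]
    refine (Complex.norm_le_abs_re_add_abs_im u).trans (add_le_add ?_ hu.1)
    rw [abs_of_nonneg hu.2.1]
    exact hu.2.2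
  have hc : Continuous sn := by
    unfold sn
    fun_prop
  obtain ⟨C1, hC1⟩ := k1.exists_bound_of_continuousOn hc.continuousOn
  refine ⟨max 1 C1, le_max_left _ _, fun u hu => ?_⟩
  have hint : ∀ t : ℤ, sn (u + t) = sn u := by
    intro t
    induction t using Int.induction_on with
    | zero => simp
    | succ n ih =>
      push_cast at ih ⊢
      rw [← add_assoc, wk_sn_per, ih]
    | pred n ih =>
      push_cast at ih ⊢
      have h := wk_sn_per (u + (-(n : ℂ) - 1))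
      rw [← h]
      have e : u + (-(n : ℂ) - 1) + 1 = u + -(n : ℂ) := by ring
      rw [e, ih]
  have hfl0 := Int.floor_le u.re
  have hfl1 := Int.lt_floor_add_one u.re
  rw [← hint (-⌊u.re⌋)]
  refine (hC1 _ ?_).trans (le_max_right _ _)
  have hre : (u + ((-⌊u.re⌋ : ℤ) : ℂ)).re = u.re - ⌊u.re⌋ := by
    simp [sub_eq_add_neg]
  have him : (u + ((-⌊u.re⌋ : ℤ) : ℂ)).im = u.im := by
    simp
  exact ⟨by rw [him]; exact hu, by rw [hre]; linarith, by rw [hre]; linarith⟩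

theorem w8_Sw_bound (N q : ℕ) (H : ℝ) : ∃ C : ℝ, 0 ≤ C ∧ ∀ (M : ℕ) (τ : Fin q → Pc N) (z ζ : Fin q → ℂ),
    (∀ j, |(z j - ζ j).im| ≤ H) → ‖Sw M τ z ζ‖ ≤ C := by
  classical
  obtain ⟨C, hC1, hC⟩ := w8_sn_bound H
  have hPw : ∀ (l : Fin N) (τ : Fin q → Pc N) (z ζ : Fin q → ℂ), (∀ j, |(z j - ζ j).im| ≤ H) →
      ‖Pw l τ z ζ‖ ≤ C ^ q := by
    intro l τ z ζ h
    unfold Pw
    rw [norm_prod]
    calc _ ≤ ∏ _j : Fin q, C := by
          apply Finset.prod_le_prod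
          · intro j _
            exact norm_nonneg _
          · intro j _
            split_ifs
            · exact hC _ (h j)
            · rw [norm_one]
              exact hC1
      _ = C ^ q := by simp
  refine ⟨∑ _l : Fin N, C ^ q, Finset.sum_nonneg fun _ _ => by positivity, ?_⟩
  intro M τ z ζ h
  unfold Sw
  refine (norm_sum_le _ _).trans (Finset.sum_le_sum fun l _ => ?_)
  split_ifs
  · exact hPw l τ z ζ h
  · rw [norm_zero]
    positivity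

/-- the kernel -/
def w8_R {N q : ℕ} (c0 : ℂ) (T M : ℕ) (k : Fin N) (τ : Fin q → Pc N) (z ζ : Fin q → ℂ) : ℂ :=
  w8_A c0 T (Sw M τ z ζ) * wk_Q k τ z ζ

theorem w8_R_diff {N q : ℕ} (c0 : ℂ) (T M : ℕ) (k : Fin N) (τ : Fin q → Pc N) (x : (Fin q → ℂ) × (Fin q → ℂ))
    (hj : ∀ j, τ j ≠ Sum.inr k → ∀ t : ℤ, x.2 j - x.1 j ≠ t) :
    DifferentiableAt ℂ (fun x : (Fin q → ℂ) × (Fin q → ℂ) => w8_R c0 T M k τ x.1 x.2) x := by
  have h1 : DifferentiableAt ℂ (fun x : (Fin q → ℂ) × (Fin q → ℂ) => w8_A c0 T (Sw M τ x.1 x.2)) x :=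
    DifferentiableAt.comp (g := w8_A c0 T) (f := fun x : (Fin q → ℂ) × (Fin q → ℂ) => Sw M τ x.1 x.2) x
      (w8_A_diff c0 T _) (wk_Sw_diff M τ x)
  exact h1.mul (wk_Q_diff k τ x hj)

theorem w8_R_diff1 {N q : ℕ} (c0 : ℂ) (T M : ℕ) (k : Fin N) (τ : Fin q → Pc N) (z ζ : Fin q → ℂ)
    (hj : ∀ j, τ j ≠ Sum.inr k → ∀ t : ℤ, ζ j - z j ≠ t) :
    DifferentiableAt ℂ (fun z : Fin q → ℂ => w8_R c0 T M k τ z ζ) z := by
  have hp : DifferentiableAt ℂ (fun z : Fin q → ℂ => (z, ζ)) z := by fun_prop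
  exact DifferentiableAt.comp (g := fun x : (Fin q → ℂ) × (Fin q → ℂ) => w8_R c0 T M k τ x.1 x.2)
    (f := fun z : Fin q → ℂ => (z, ζ)) z (w8_R_diff c0 T M k τ (z, ζ) hj) hp

theorem w8_R_per {N q : ℕ} (c0 : ℂ) (T M : ℕ) (k : Fin N) (τ : Fin q → Pc N) (z ζ : Fin q → ℂ) (i : Fin q) :
    w8_R c0 T M k τ (Function.update z i (z i + 1)) ζ = w8_R c0 T M k τ z ζ := by
  obtain ⟨_, p2, p3⟩ := wk_per (M := M) k τ z ζ i
  unfold w8_R
  rw [p2, p3]

theorem w8_R_equi {N q : ℕ} (c0 : ℂ) (T M : ℕ) (k : Fin N) (τ : Fin q → Pc N) (z ζ : Fin q → ℂ)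
    (e : Equiv.Perm (Fin q)) :
    w8_R c0 T M k (fun i => τ (e i)) (fun i => z (e i)) (fun i => ζ (e i)) = w8_R c0 T M k τ z ζ := by
  obtain ⟨_, p2, p3⟩ := wk_equi (M := M) k τ z ζ e
  unfold w8_R
  rw [p2, p3]

theorem w8_Sw_cont {N q : ℕ} (M : ℕ) (τ : Fin q → Pc N) (z : Fin q → ℂ) : Continuous (fun ζ => Sw M τ z ζ) := by
  have h : Differentiable ℂ (fun ζ => Sw M τ z ζ) := fun ζ => w7_diffSw τ z ζ
  exact h.continuous

theorem w8_K_cont {N q : ℕ} (M : ℕ) (k : Fin N) (τ : Fin q → Pc N) (z : Fin q → ℂ) (S : Set (Fin q → ℂ))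
    (F : (Fin q → ℂ) → ℂ) (hF : ContinuousOn F S) (hne : ∀ ζ ∈ S, Sw M τ z ζ ≠ 0)
    (hQ : ContinuousOn (fun ζ => wk_Q k τ z ζ) S) :
    ContinuousOn (fun ζ => F ζ * ((Sw M τ z ζ)⁻¹ * wk_Q k τ z ζ)) S := by
  have h1 : ContinuousOn (fun ζ => Sw M τ z ζ) S := (w8_Sw_cont M τ z).continuousOn
  have h2 : ContinuousOn (fun ζ => (Sw M τ z ζ)⁻¹) S := h1.inv₀ hne
  exact hF.mul (h2.mul hQ)

theorem w8_term {f s Q : ℂ} {c0 θ ρ CF CQ : ℝ} (T : ℕ) (hs : s ≠ 0) (hf : ‖f‖ ≤ CF) (hQ : ‖Q‖ ≤ CQ)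
    (hθ : ‖1 - (c0 : ℂ) * s‖ ≤ θ) (hρ : 0 < ρ) (hρs : ρ ≤ s.re) (hCF0 : 0 ≤ CF) (hθ0 : 0 ≤ θ) :
    ‖f * (w8_A (c0 : ℂ) T s * Q) - f * (s⁻¹ * Q)‖ ≤ CF * ((θ ^ T * ρ⁻¹) * CQ) := by
  have e : f * (w8_A (c0 : ℂ) T s * Q) - f * (s⁻¹ * Q) = f * ((w8_A (c0 : ℂ) T s - s⁻¹) * Q) := by ring
  rw [e, w8_A_sub _ _ _ hs, norm_mul, norm_mul, norm_neg, norm_mul, norm_pow, norm_inv]
  have h1 : ‖1 - (c0 : ℂ) * s‖ ^ T ≤ θ ^ T := pow_le_pow_left₀ (norm_nonneg _) hθ T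
  have h2 : ‖s‖⁻¹ ≤ ρ⁻¹ := inv_anti₀ hρ (hρs.trans (Complex.re_le_norm _))
  have h3 : 0 ≤ θ ^ T := by positivity
  have h4 : 0 ≤ ρ⁻¹ := by positivity
  exact mul_le_mul hf (mul_le_mul (mul_le_mul h1 h2 (by positivity) h3) hQ (norm_nonneg _) (by positivity))
    (by positivity) hCF0

/-- the approximating functions -/
def w8_FT (N : ℕ) (P' G : Set ℤ) (r σ : ℝ) (M : ℕ) (k : Fin N) (q : ℕ) (c0 : ℂ) (F : (Fin q → ℂ) → ℂ) (T : ℕ)
    (z : Fin q → ℂ) : ℂ :=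
  ∑ τ : Fin q → Pc N, itI N P' G r σ q τ (fun ζ => F ζ * w8_R c0 T M k τ z ζ)

/-- W8: approximation of the window operator -/
theorem st_W8 (h3 : ST_W3) (h4 : ST_W4) : ST_W8 := by
  classical
  intro N M q P G k hD hkM w' w hw' hww hw4
  have hN := hD.pos
  obtain ⟨h0, ρ, C₀, hh0, hρ, hW3⟩ := h3 N q ((w - w') / 2) hN (by linarith)
  refine ⟨h0, hh0, ?_⟩
  intro h h' hh hhh hh' F hF
  set r : ℝ := (w' + w) / 2 with hr_def
  set σ : ℝ := (h' + h) / 2 with hσ_def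
  have hr : 0 < r := by rw [hr_def]; linarith
  have hwr : w' < r := by rw [hr_def]; linarith
  have hrw : r < w := by rw [hr_def]; linarith
  have hr4 : r < 1 / (4 * N) := hrw.trans hw4
  have hhσ : h < σ := by rw [hσ_def]; linarith
  have hσh : σ < h' := by rw [hσ_def]; linarith
  have hσ : 0 < σ := hh.trans hhσ
  set P' : Set ℤ := P ∪ pcl N {((k : ℕ) : ℤ)} with hP'
  have hsh : Shape N P' G := hD.sh.union _
  -- the constants
  set C : ℝ := max 1 C₀ with hC_def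
  have hC1 : 1 ≤ C := le_max_left _ _
  have hC0 : 0 < C := by linarith
  set c0 : ℝ := ρ / C ^ 2 with hc0
  set θ : ℝ := Real.sqrt (1 - ρ ^ 2 / C ^ 2) with hθ
  have hθ0 : 0 ≤ θ := Real.sqrt_nonneg _
  have hθ1 : θ < 1 := by
    rw [hθ, Real.sqrt_lt' one_pos]
    have : 0 < ρ ^ 2 / C ^ 2 := by positivity
    linarith
  have hth : ∀ s : ℂ, ρ ≤ s.re → ‖s‖ ≤ C → ‖1 - (c0 : ℂ) * s‖ ≤ θ := fun s a b => w8_theta hρ hC0 s a b
  clear_value θ c0
  obtain ⟨CQ, hCQ0, hCQ⟩ := wk_Q_bound hN q hr hrw hhσ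
  obtain ⟨CS, hCS0, hCS⟩ := w8_Sw_bound N q (σ + h)
  obtain ⟨CF₀, hCF₀⟩ := hF.bdd
  set CF : ℝ := max 0 CF₀ with hCF_def
  have hCF0 : 0 ≤ CF := le_max_left _ _
  -- the contour
  have hcon : ∀ (τ : Fin q → Pc N), ∀ ζ ∈ wl_C N P' G r σ τ, ζ ∈ PU q (US N P' G w' h') :=
    fun τ ζ hζ j => w7_cP hN hsh hwr hr hr4 hσh (τ j) (hζ j)
  have hCFb : ∀ (τ : Fin q → Pc N), ∀ ζ ∈ wl_C N P' G r σ τ, ‖F ζ‖ ≤ CF :=
    fun τ ζ hζ => (hCF₀ ζ (hcon τ ζ hζ)).trans (le_max_right _ _)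
  have hPk : ∀ Pz : Set ℤ, P ⊆ Pz → ∀ l : Fin N, l ≠ k → ((l : ℕ) : ℤ) ∈ P' → ((l : ℕ) : ℤ) ∈ Pz := by
    intro Pz hPz l hl hlP
    rcases hlP with h1 | h1
    · exact hPz h1
    · exact absurd (wk_pcl l k h1) hl
  -- the kernel
  have hRc : ∀ (T : ℕ) (τ : Fin q → Pc N), ContinuousOn
      (fun x : (Fin q → ℂ) × (Fin q → ℂ) => F x.2 * w8_R (c0 : ℂ) T M k τ x.1 x.2)
      (PU q (US N P G w h) ×ˢ wl_C N P' G r σ τ) := by
    intro T τ
    apply ContinuousOn.mul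
    · exact hF.hol.continuousOn.comp continuousOn_snd fun x hx => hcon τ _ hx.2
    · intro x hx
      exact (w8_R_diff (c0 : ℂ) T M k τ x
        (wk_off hN hD.sh.perP hr hrw hhσ k (hPk P subset_rfl) hx.1 hx.2)).continuousAt.continuousWithinAt
  have hRc1 : ∀ (T : ℕ) (τ : Fin q → Pc N), ∀ z ∈ PU q (US N P G w h),
      ContinuousOn (fun ζ => F ζ * w8_R (c0 : ℂ) T M k τ z ζ) (wl_C N P' G r σ τ) := by
    intro T τ z hz
    exact (hRc T τ).comp (continuous_const.prodMk continuous_id).continuousOn fun ζ hζ => ⟨hz, hζ⟩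
  have hopen : IsOpen (PU q (US N P G w h)) := isOpen_PU q (isOpen_US hN P G w h)
  refine ⟨w8_FT N P' G r σ M k q (c0 : ℂ) F, ?_, ?_⟩
  · intro T
    constructor
    · unfold w8_FT
      apply DifferentiableOn.fun_sum
      intro τ _
      obtain ⟨L, hL⟩ := h4 N q q P' G r σ hN hr hr4 hσ τ
      refine (hL (PU q (US N P G w h)) (fun z ζ => F ζ * w8_R (c0 : ℂ) T M k τ z ζ) hopen (hRc T τ) ?_).1
      intro ζ hζ z hz
      exact ((differentiableAt_const (F ζ)).mul (w8_R_diff1 (c0 : ℂ) T M k τ z ζ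
        (wk_off hN hD.sh.perP hr hrw hhσ k (hPk P subset_rfl) hz hζ))).differentiableWithinAt
    · intro z _ i
      refine Finset.sum_congr rfl fun τ _ => ?_
      refine congrArg (itI N P' G r σ q τ) (funext fun ζ => ?_)
      rw [w8_R_per]
    · intro z hz e
      exact wk_alt hN hr hr4 hσ F (w8_R (c0 : ℂ) T M k) e (fun τ z ζ => w8_R_equi (c0 : ℂ) T M k τ z ζ e)
        (fun τ ζ hζ => hF.alt ζ (hcon τ ζ hζ) e) z (fun τ => hRc1 T τ z hz)
    · choose L hL0 hL using fun τ : Fin q → Pc N => wl_bound (P := P') (G := G) hN hr hr4 hσ q τ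
      set BA : ℝ := ‖(c0 : ℂ)‖ * ∑ t ∈ Finset.range T, (1 + ‖(c0 : ℂ)‖ * CS) ^ t with hBA
      have hBA0 : 0 ≤ BA := by positivity
      refine ⟨∑ τ : Fin q → Pc N, L τ * (CF * (BA * CQ)), fun z hz => ?_⟩
      refine (norm_sum_le _ _).trans (Finset.sum_le_sum fun τ _ => ?_)
      refine hL τ _ (hRc1 T τ z hz) _ (by positivity) fun ζ hζ => ?_
      unfold w8_R
      rw [norm_mul, norm_mul]
      have hS : ‖Sw M τ z ζ‖ ≤ CS := by
        apply hCS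
        intro j
        rw [Complex.sub_im]
        have h1 := wk_im _ (hζ j)
        have h2 := (hz j).1
        exact (abs_sub _ _).trans (by linarith)
      apply mul_le_mul (hCFb τ ζ hζ) _ (by positivity) hCF0
      exact mul_le_mul (w8_A_bound _ T _ CS hS) (hCQ P' P G hD.sh.perP k (hPk P subset_rfl) τ z hz ζ hζ)
        (norm_nonneg _) hBA0
  · intro i hi ε hε
    choose L hL0 hL using fun τ : Fin q → Pc N => wl_bound (P := P') (G := G) hN hr hr4 hσ q τ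
    set D : ℝ := ∑ τ : Fin q → Pc N, L τ * (CF * (ρ⁻¹ * CQ)) with hDdef
    have hlim : Tendsto (fun T : ℕ => D * θ ^ T) atTop (𝓝 (D * 0)) :=
      (tendsto_pow_atTop_nhds_zero_of_lt_one hθ0 hθ1).const_mul D
    rw [mul_zero] at hlim
    obtain ⟨T0, hT0⟩ := eventually_atTop.1 (hlim.eventually_le_const hε)
    refine ⟨T0, fun T hT z hz => ?_⟩
    have hiN : i < N := hi.trans_le hD.le
    set Pz : Set ℤ := P ∪ pcl N {(i : ℤ)} with hPz
    have hPzP : P ⊆ Pz := Set.subset_union_left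
    have hshz : Shape N Pz G := hD.sh.union _
    have hzP : z ∈ PU q (US N P G w h) := fun j => US_mono hPzP subset_rfl le_rfl le_rfl (hz j)
    -- positivity
    have hpos : ∀ (τ : Fin q → Pc N), ∀ ζ ∈ wl_C N P' G r σ τ, ρ ≤ (Sw M τ z ζ).re ∧ ‖Sw M τ z ζ‖ ≤ C := by
      intro τ ζ hζ
      obtain ⟨a1, a2, _⟩ := hW3 M τ z ζ
        (fun j => ((hz j).1.le.trans (hhh.le.trans hh'.le)))
        (fun j => (wk_im _ (hζ j)).trans (hσh.le.trans hh'.le))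
        ⟨⟨i, hiN⟩, hi, fun j hj t => by
          have hζj := hζ j
          rw [hj] at hζj
          have hiP : (i : ℤ) ∈ Pz := Or.inr (subset_pcl N _ rfl)
          have hdist : |(ζ j).re - ((i : ℤ) : ℝ) / N| ≤ r := by
            rcases hζj with (⟨_, _, b3⟩ | ⟨_, _, _, b4⟩) | ⟨_, _, _, b4⟩
            · push_cast
              exact b3
            · rw [b4]
              push_cast
              rw [sub_sub_cancel_left, abs_neg, abs_of_pos hr]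
            · rw [b4]
              push_cast
              rw [add_sub_cancel_left, abs_of_pos hr]
          have := w7_sep hN hshz.perP hiP hdist (hz j) t
          refine le_trans ?_ this
          rw [hr_def]
          linarith⟩
      exact ⟨a1, a2.trans (le_max_right _ _)⟩
    have hne : ∀ (τ : Fin q → Pc N), ∀ ζ ∈ wl_C N P' G r σ τ, Sw M τ z ζ ≠ 0 := by
      intro τ ζ hζ h1
      have := (hpos τ ζ hζ).1
      rw [h1, Complex.zero_re] at this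
      linarith
    -- the kernel of the window operator
    have hop : eop N P' G r σ M k q F z = ∑ τ : Fin q → Pc N, itI N P' G r σ q τ
        (fun ζ => F ζ * ((Sw M τ z ζ)⁻¹ * wk_Q k τ z ζ)) := by
      unfold eop
      refine Finset.sum_congr rfl fun τ _ => ?_
      congr 1
      funext ζ
      rw [← wk_Q_eq]
      ring
    have hKc : ∀ τ : Fin q → Pc N, ContinuousOn (fun ζ => F ζ * ((Sw M τ z ζ)⁻¹ * wk_Q k τ z ζ))
        (wl_C N P' G r σ τ) := by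
      intro τ
      have hcont : Continuous fun ζ : Fin q → ℂ => (z, ζ) := by fun_prop
      have hQ1 := ContinuousOn.comp (g := fun x : (Fin q → ℂ) × (Fin q → ℂ) => wk_Q k τ x.1 x.2)
        (s := wl_C N P' G r σ τ) (wk_Q_cont hN hD.sh.perP hr hrw hhσ k (hPk P subset_rfl) τ) hcont.continuousOn
            fun ζ hζ => ⟨hzP, hζ⟩
      exact w8_K_cont M k τ z _ F (hF.hol.continuousOn.mono (hcon τ)) (hne τ) hQ1
    rw [hop]
    unfold w8_FT
    rw [← Finset.sum_sub_distrib]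
    have hstep : ∀ τ : Fin q → Pc N, ‖itI N P' G r σ q τ (fun ζ => F ζ * w8_R (c0 : ℂ) T M k τ z ζ)
        - itI N P' G r σ q τ (fun ζ => F ζ * ((Sw M τ z ζ)⁻¹ * wk_Q k τ z ζ))‖
          ≤ L τ * (CF * (ρ⁻¹ * CQ)) * θ ^ T := by
      intro τ
      rw [← wl_sub hN hr hr4 hσ (hRc1 T τ z hzP) (hKc τ)]
      have hb := hL τ (fun ζ => F ζ * w8_R (c0 : ℂ) T M k τ z ζ - F ζ * ((Sw M τ z ζ)⁻¹ * wk_Q k τ z ζ))
        ((hRc1 T τ z hzP).sub (hKc τ)) (CF * ((θ ^ T * ρ⁻¹) * CQ)) (by positivity) (by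
        intro ζ hζ
        obtain ⟨b1, b2⟩ := hpos τ ζ hζ
        exact w8_term T (hne τ ζ hζ) (hCFb τ ζ hζ) (hCQ P' P G hD.sh.perP k (hPk P subset_rfl) τ z hzP ζ hζ)
          (hth _ b1 b2) hρ b1 hCF0 hθ0)
      refine hb.trans (le_of_eq ?_)
      ring
    calc _ ≤ ∑ τ : Fin q → Pc N, L τ * (CF * (ρ⁻¹ * CQ)) * θ ^ T :=
          (norm_sum_le _ _).trans (Finset.sum_le_sum fun τ _ => hstep τ)
      _ = D * θ ^ T := by rw [hDdef, Finset.sum_mul]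
      _ ≤ ε := hT0 T hT

end

end Pool.Agent.Helper67.DO
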